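import Pool.Agent.H87.TW.Defs
import Pool.Agent.H97.FB.ANV
import Pool.Agent.H97.FB.ANS

/-! # [H87 TW UNR] From the Puiseux data of a family with different constant terms to `e = 1`

Let `pd = Fm.pd`, `e, q`. For `ζ^e = 1`: `rescale ζ (pd.x u)` is a root of `(rv n 1 f).map (tq e q)` (`perm_rot` of `Pool/Agent/H52/AC/PRM.lean`), hence `= pd.x u'`, with the same constant term, so `u' = u`. With a primitive `e`-th root of unity `ζ` (`Complex.isPrimitiveRoot_exp`):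
`(ζ^k - 1) coeff k (pd.x u) = 0`, so `coeff k (pd.x u) = 0` unless `e ∣ k` (`IsPrimitiveRoot.pow_eq_one_iff_dvd`). Put `x' u = PowerSeries.mk fun k => coeff (e k) (pd.x u)`, so `exr ℂ e _ (x' u) = pd.x u` (`coeff_exr`, `Pool/Agent/H87/SA2/NPD.lean`).
`pd' : PData (rv n 1 f) n`: `e' = 1`, `q' = q^e`, `R' = R^e`: `‖coeff k (x' u)‖ ≤ R^(e k + 1) ≤ (R^e)^(k+1)`, `2 ≤ R ≤ R^e`; injective as `exr` maps it to `pd.x`; split: apply the injective `exr ℂ e _` to both sides: `(exr).comp (tq 1 (q^e)) = tq e q` (`Polynomial.ringHom_ext'`, `X ↦ C (q^e) * X^e = (C q * X)^e`).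
Bounds: `e ≤ n!`, `q, R ≤ B`: `q', R' ≤ B^(n!)`; take `C = n! + 1` (or larger).
Values: for `1 ≤ a`, `pd.R / XA pd a < 1` (`B^C ≤ a`, `C` large: `XA = q a^(1/e) ≥ a^(1/n!)`; see `anv_XA_ge`, `anv_grA`): `thA Fm.pd 1 a u = a * evC (1/XA) (pd.x u) = a * evz (1/XA) (pd.x u)` (`evC_eq_evz`) and
`evz (1/XA) (pd.x u) = ∑_m coeff m (pd.x u) XA^(-m) = ∑_k coeff (e k) (pd.x u) (XA^e)^(-k) = evz (1/(q^e a)) (x' u)`, `XA^e = q^e a` (`anv_XA_pow`), by `Function.Injective.tsum_eq` for `k ↦ e k` (support in the range).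
`UnR`: `cdeg`: `1 * (n - i) = n - i`; `le`: `B ≤ B^C`; `inj0`: `coeff 0 (x' u) = coeff 0 (pd.x u)`. -/

namespace Pool.Agent.H87.TW

open Finset Polynomial Pool.Agent.H72.ES Pool.Agent.H87.SA2 Pool.Agent.H8.AW Pool.Agent.H52.AC
  Pool.Agent.H97.NW Pool.Agent.H97.FB

theorem unr_supp {g : ℤ[X][X]} {n : ℕ} (pd : PData g n)
    (hinj : Function.Injective fun u => PowerSeries.coeff 0 (pd.x u)) (u : Fin n) (k : ℕ)
    (hk : ¬ pd.e ∣ k) : PowerSeries.coeff k (pd.x u) = 0 := by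
  have he : pd.e ≠ 0 := by have := pd.e_pos; omega
  obtain ⟨ζ, hζ⟩ : ∃ ζ : ℂ, IsPrimitiveRoot ζ pd.e := ⟨_, Complex.isPrimitiveRoot_exp pd.e he⟩
  obtain ⟨ρ, hρ⟩ := perm_rot pd hζ.pow_eq_one
  have h1 : ρ u = u := by
    apply hinj
    show PowerSeries.coeff 0 (pd.x (ρ u)) = PowerSeries.coeff 0 (pd.x u)
    rw [← hρ u, PowerSeries.coeff_rescale, pow_zero, one_mul]
  have h2 := congrArg (PowerSeries.coeff k) (hρ u)
  rw [h1, PowerSeries.coeff_rescale] at h2
  have h3 : (ζ ^ k - 1) * PowerSeries.coeff k (pd.x u) = 0 := by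
    rw [sub_mul, one_mul, h2, sub_self]
  rcases mul_eq_zero.1 h3 with h4 | h4
  · exact absurd ((hζ.pow_eq_one_iff_dvd k).1 (sub_eq_zero.1 h4)) hk
  · exact h4

/-- the series in `T^e` -/
noncomputable def xe {g : ℤ[X][X]} {n : ℕ} (pd : PData g n) (u : Fin n) : PowerSeries ℂ :=
  PowerSeries.mk fun k => PowerSeries.coeff (pd.e * k) (pd.x u)

theorem coeff_xe {g : ℤ[X][X]} {n : ℕ} (pd : PData g n) (u : Fin n) (k : ℕ) :
    PowerSeries.coeff k (xe pd u) = PowerSeries.coeff (pd.e * k) (pd.x u) := by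
  rw [xe, PowerSeries.coeff_mk]

theorem exr_xe {g : ℤ[X][X]} {n : ℕ} (pd : PData g n)
    (hinj : Function.Injective fun u => PowerSeries.coeff 0 (pd.x u)) (he : pd.e ≠ 0) (u : Fin n) :
    exr ℂ pd.e he (xe pd u) = pd.x u := by
  ext k
  rw [coeff_exr]
  split_ifs with h
  · obtain ⟨j, rfl⟩ := h
    rw [Nat.mul_div_cancel_left j (Nat.pos_of_ne_zero he), coeff_xe]
  · exact (unr_supp pd hinj u k h).symm

theorem exr_inj {e : ℕ} (he : e ≠ 0) : Function.Injective (exr ℂ e he) := by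
  intro a b hab
  ext k
  have h1 := congrArg (PowerSeries.coeff (e * k)) hab
  rw [coeff_exr, coeff_exr, if_pos (Dvd.intro k rfl), if_pos (Dvd.intro k rfl),
    Nat.mul_div_cancel_left k (Nat.pos_of_ne_zero he)] at h1
  exact h1

theorem exr_tq {e q : ℕ} (he : e ≠ 0) : (exr ℂ e he).comp (tq 1 (q ^ e)) = tq e q := by
  apply Polynomial.ringHom_ext
  · intro a
    simp [tq]
  · rw [RingHom.comp_apply, tq, coe_eval₂RingHom, eval₂_X, tq, coe_eval₂RingHom, eval₂_X, pow_one,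
      map_mul, exr_C, exr_X, mul_pow, ← map_pow, Nat.cast_pow]

/-- the Puiseux data with `e = 1` -/
noncomputable def pdE {g : ℤ[X][X]} {n : ℕ} (pd : PData g n)
    (hinj : Function.Injective fun u => PowerSeries.coeff 0 (pd.x u)) : PData g n where
  e := 1
  q := pd.q ^ pd.e
  e_pos := le_refl 1
  q_pos := Nat.one_le_pow _ _ pd.q_pos
  x := xe pd
  x_inj := by
    have he : pd.e ≠ 0 := by have := pd.e_pos; omega
    intro u v h
    apply pd.x_inj
    rw [← exr_xe pd hinj he u, ← exr_xe pd hinj he v, h]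
  split := by
    have he : pd.e ≠ 0 := by have := pd.e_pos; omega
    apply Polynomial.map_injective (exr ℂ pd.e he) (exr_inj he)
    rw [Polynomial.map_map, exr_tq, pd.split, Polynomial.map_prod]
    refine Finset.prod_congr rfl fun i _ => ?_
    rw [Polynomial.map_sub, Polynomial.map_X, Polynomial.map_C, exr_xe pd hinj he]
  integral := fun i k => by
    rw [coeff_xe]
    exact pd.integral i _
  R := pd.R ^ pd.e
  R_ge := by
    have h1 : (1 : ℝ) ≤ pd.R := by linarith [pd.R_ge]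
    calc (2 : ℝ) ≤ pd.R ^ 1 := by rw [pow_one]; exact pd.R_ge
      _ ≤ pd.R ^ pd.e := pow_le_pow_right₀ h1 pd.e_pos
  growth := fun i k => by
    have h1 : (1 : ℝ) ≤ pd.R := by linarith [pd.R_ge]
    rw [coeff_xe, ← pow_mul]
    refine (pd.growth i _).trans (pow_le_pow_right₀ h1 ?_)
    rw [mul_add, mul_one]
    exact Nat.add_le_add_left pd.e_pos _

/-- the values -/
theorem evz_xe {g : ℤ[X][X]} {n : ℕ} (pd : PData g n)
    (hinj : Function.Injective fun u => PowerSeries.coeff 0 (pd.x u)) (u : Fin n) (T : ℂ) :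
    evz T (pd.x u) = evz (T ^ pd.e) (xe pd u) := by
  have he : pd.e ≠ 0 := by have := pd.e_pos; omega
  unfold Pool.Agent.H52.AC.evz
  have h1 : Function.Injective fun k : ℕ => pd.e * k := fun a b h =>
    Nat.eq_of_mul_eq_mul_left (Nat.pos_of_ne_zero he) h
  rw [← h1.tsum_eq]
  · refine tsum_congr fun k => ?_
    rw [coeff_xe, pow_mul]
  · intro k hk
    by_contra h2
    apply hk
    have h3 : ¬ pd.e ∣ k := by
      rintro ⟨j, rfl⟩
      exact h2 ⟨j, rfl⟩
    show PowerSeries.coeff k (pd.x u) * T ^ k = 0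
    rw [unr_supp pd hinj u k h3, zero_mul]

theorem unr_of_fam (n : ℕ) : ∃ C : ℕ, 1 ≤ C ∧ ∀ (B : ℕ) (f : ℤ[X][X]) (Fm : FamB n 1 B f),
    (Function.Injective fun u => PowerSeries.coeff 0 (Fm.pd.x u)) →
    ∃ Q : UnR n (B ^ C) f,
      (∀ u, PowerSeries.coeff 0 (Q.pd.x u) = PowerSeries.coeff 0 (Fm.pd.x u)) ∧
      ∀ a : ℕ, B ^ C ≤ a → ∀ u, Q.th a u = thA Fm.pd 1 a u := by
  refine ⟨n.factorial + 1, by omega, fun B f Fm hinj => ?_⟩
  have hB := Fm.B2
  have hBB : B ≤ B ^ (n.factorial + 1) := by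
    calc B = B ^ 1 := (pow_one B).symm
      _ ≤ B ^ (n.factorial + 1) := Nat.pow_le_pow_right (by omega) (by omega)
  have hBe : B ^ Fm.pd.e ≤ B ^ (n.factorial + 1) :=
    Nat.pow_le_pow_right (by omega) (Fm.e_le.trans (Nat.le_succ _))
  have hR2 := Fm.pd.R_ge
  have hRe : Fm.pd.R ^ Fm.pd.e ≤ ((B ^ Fm.pd.e : ℕ) : ℝ) := by
    rw [Nat.cast_pow]
    exact pow_le_pow_left₀ (by linarith) Fm.R_le _
  refine ⟨{ n2 := Fm.n2
            B2 := hB.trans hBB
            monic := Fm.monic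
            deg := Fm.deg
            cdeg := fun i => by have := Fm.cdeg i; rwa [one_mul] at this
            le := fun i j => (Fm.le i j).trans (by exact_mod_cast hBB)
            pd := pdE Fm.pd hinj
            e1 := rfl
            q_le := (Nat.pow_le_pow_left Fm.q_le _).trans hBe
            R_le := hRe.trans (by exact_mod_cast hBe)
            inj0 := ?_ }, ?_, ?_⟩
  · intro u v h
    apply hinj
    have h1 : PowerSeries.coeff 0 (xe Fm.pd u) = PowerSeries.coeff 0 (xe Fm.pd v) := h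
    rw [coeff_xe, coeff_xe, mul_zero] at h1
    exact h1
  · intro u
    show PowerSeries.coeff 0 (xe Fm.pd u) = _
    rw [coeff_xe, mul_zero]
  · intro a ha u
    have ha1 : 1 ≤ a := by
      have : 1 ≤ B ^ (n.factorial + 1) := Nat.one_le_pow _ _ (by omega)
      omega
    have hX := anv_XA_pos Fm.pd ha1
    have he : Fm.pd.e ≠ 0 := by have := Fm.pd.e_pos; omega
    have hlt : Fm.pd.R < XA Fm.pd a := by
      refine lt_of_pow_lt_pow_left₀ Fm.pd.e hX.le ?_
      rw [anv_XA_pow]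
      have h1 : ((B ^ Fm.pd.e : ℕ) : ℝ) < a := by
        have h2 : B ^ Fm.pd.e < B ^ (n.factorial + 1) :=
          Nat.pow_lt_pow_right (by omega) (Nat.lt_succ_of_le Fm.e_le)
        exact_mod_cast lt_of_lt_of_le h2 ha
      have h2 : (1 : ℝ) ≤ (Fm.pd.q : ℝ) ^ Fm.pd.e := one_le_pow₀ (anv_q Fm.pd)
      have h3 : (0 : ℝ) ≤ a := Nat.cast_nonneg a
      calc Fm.pd.R ^ Fm.pd.e ≤ ((B ^ Fm.pd.e : ℕ) : ℝ) := hRe
        _ < a := h1
        _ = 1 * a := (one_mul _).symm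
        _ ≤ (Fm.pd.q : ℝ) ^ Fm.pd.e * a := mul_le_mul_of_nonneg_right h2 h3
    have hgr : Gr (1 / XA Fm.pd a) (Fm.pd.x u) := by
      refine anv_gr Fm.pd (one_div_pos.2 hX).le ?_ u
      rw [mul_one_div, div_lt_one hX]
      exact hlt
    show (a : ℂ) * evz (1 / (((Fm.pd.q ^ Fm.pd.e : ℕ) : ℂ) * a)) (xe Fm.pd u) = _
    rw [thA, pow_one, evC_eq_evz (one_div_pos.2 hX).le hgr, evz_xe Fm.pd hinj]
    congr 2
    have h4 : (XA Fm.pd a : ℂ) ^ Fm.pd.e = ((Fm.pd.q ^ Fm.pd.e : ℕ) : ℂ) * a := by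
      have h5 := congrArg (fun z : ℝ => (z : ℂ)) (anv_XA_pow Fm.pd a)
      push_cast at h5 ⊢
      exact h5
    rw [← h4]
    push_cast
    rw [div_pow, one_pow]

end Pool.Agent.H87.TW
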