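import Mathlib

/-! # [H87 TW FAC] The irreducible factor with a given root (Mathlib only)

`ℤ[X][X]` is a UFD. PROOF. `(Φ.map φ).eval (z i0) = 0`. `Φ ≠ 0`, so `Φ` is associated to the product of its irreducible factors (`UniqueFactorizationMonoid.factors`, `factors_prod`), so some irreducible factor `g0 ∣ Φ` satisfies
`(g0.map φ).eval (z i0) = 0` (`L` is a field; `Multiset.prod_eq_zero_iff` after mapping). `Φ = g0 * h`: `g0.leadingCoeff * h.leadingCoeff = 1` in `ℤ[X]`, so `g0.leadingCoeff` is a unit `v`; `g = C v⁻¹ * g0` is monic, irreducible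
(associated to `g0`), divides `Φ`, has the root `z i0`. `D = g.natDegree`. `g.map φ` is monic and divides `Φ.map φ = ∏ (X - C (z i))` in `L[X]`; it splits (`Polynomial.Splits.of_dvd` or `splits_of_splits_of_dvd`), so
`g.map φ = (roots.map (X - C ·)).prod`, `roots (g.map φ) ≤ roots (Φ.map φ) = univ.val.map z` (`Multiset` inequality, `Polynomial.roots.le_of_dvd`), which has no duplicates (`z` injective). Let `J = univ.filter fun i => z i ∈ roots (g.map φ)`,
a `Finset ι`; `roots (g.map φ) = J.val.map z`, `J.card = D`, `i0 ∈ J`. `j : Fin D → ι` from `J.equivFinOfCardEq`. The product over `J` is the product over `Fin D` (`Finset.prod_coe_sort`, `Fintype.prod_equiv`). -/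

namespace Pool.Agent.H87.TW

open Finset Polynomial

theorem exists_fac {L : Type} [Field L] (φ : ℤ[X] →+* L) {ι : Type} [Fintype ι]
    (z : ι → L) (hz : Function.Injective z) (Φ : ℤ[X][X]) (hΦ : Φ.Monic)
    (hs : Φ.map φ = ∏ i, (X - C (z i))) (i0 : ι) :
    ∃ (D : ℕ) (g : ℤ[X][X]) (j : Fin D → ι) (k0 : Fin D), g.Monic ∧ g.natDegree = D ∧
      Irreducible g ∧ Function.Injective j ∧ j k0 = i0 ∧ g.map φ = ∏ k, (X - C (z (j k))) := by
  classical
  have hroot : (Φ.map φ).eval (z i0) = 0 := by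
    rw [hs, eval_prod]
    exact Finset.prod_eq_zero (Finset.mem_univ i0) (by simp)
  have hΦ0 : Φ ≠ 0 := hΦ.ne_zero
  obtain ⟨ψ, hψ⟩ : ∃ ψ : ℤ[X][X] →+* L, ∀ f : ℤ[X][X], ψ f = (f.map φ).eval (z i0) := by
    refine ⟨eval₂RingHom φ (z i0), fun f => ?_⟩
    rw [eval_map]
    rfl
  obtain ⟨m, hm, hass⟩ := WfDvdMonoid.exists_factors Φ hΦ0
  obtain ⟨u, hu⟩ := hass
  have h1 : ψ m.prod = 0 := by
    have h2 : ψ m.prod * ψ u = 0 := by
      rw [← map_mul, hu, hψ, hroot]
    exact (mul_eq_zero.mp h2).resolve_right (u.isUnit.map ψ).ne_zero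
  rw [map_multiset_prod, Multiset.prod_eq_zero_iff, Multiset.mem_map] at h1
  obtain ⟨g0, hg0m, hg0⟩ := h1
  have hirr := hm g0 hg0m
  have hdvd : g0 ∣ Φ := (Multiset.dvd_prod hg0m).trans ⟨u, hu.symm⟩
  obtain ⟨h, hh⟩ := hdvd
  have hlc : h.leadingCoeff * g0.leadingCoeff = 1 := by
    have h3 := hΦ.leadingCoeff
    rw [hh, leadingCoeff_mul] at h3
    rw [mul_comm]
    exact h3
  have hcu : IsUnit h.leadingCoeff := IsUnit.of_mul_eq_one _ hlc
  obtain ⟨g, hg⟩ : ∃ g : ℤ[X][X], g = C h.leadingCoeff * g0 := ⟨_, rfl⟩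
  have hgm : g.Monic := by
    rw [Monic, hg, leadingCoeff_mul, leadingCoeff_C, hlc]
  have hcu' : IsUnit (C h.leadingCoeff : ℤ[X][X]) := hcu.map C
  have hgi : Irreducible g := by
    rw [hg]
    exact (irreducible_isUnit_mul hcu').mpr hirr
  have hgΦ : g ∣ Φ := by
    rw [hg, IsUnit.mul_left_dvd hcu']
    exact ⟨h, hh⟩
  have hgr : (g.map φ).eval (z i0) = 0 := by
    rw [← hψ, hg, map_mul, hg0, mul_zero]
  have hpm : (g.map φ).Monic := hgm.map φ
  have hPne : Φ.map φ ≠ 0 := (hΦ.map φ).ne_zero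
  have hdp : g.map φ ∣ Φ.map φ := Polynomial.map_dvd φ hgΦ
  have hPs : (Φ.map φ).Splits := by
    rw [hs]
    exact Splits.prod fun i _ => Splits.X_sub_C _
  have hps : (g.map φ).Splits := Splits.of_dvd hPs hPne hdp
  have hprod := hps.eq_prod_roots_of_monic hpm
  have hle : (g.map φ).roots ≤ (Φ.map φ).roots := roots.le_of_dvd hPne hdp
  have hPr : (Φ.map φ).roots = (univ : Finset ι).val.map z := by
    have h3 : Φ.map φ = (((univ : Finset ι).val.map z).map fun a => X - C a).prod := by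
      rw [hs, Multiset.map_map]
      rfl
    rw [h3, roots_multiset_prod_X_sub_C]
  have hnd : (g.map φ).roots.Nodup := by
    apply Multiset.nodup_of_le hle
    rw [hPr]
    exact (univ : Finset ι).nodup.map hz
  obtain ⟨J, hJ⟩ : ∃ J : Finset ι, J = univ.filter fun i => z i ∈ (g.map φ).roots := ⟨_, rfl⟩
  have hJr : J.val.map z = (g.map φ).roots := by
    rw [Multiset.Nodup.ext (J.nodup.map hz) hnd]
    intro a
    rw [Multiset.mem_map]
    constructor
    · rintro ⟨i, hi, rfl⟩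
      rw [hJ] at hi
      exact (Finset.mem_filter.mp hi).2
    · intro ha
      have h3 := Multiset.mem_of_le hle ha
      rw [hPr, Multiset.mem_map] at h3
      obtain ⟨i, -, rfl⟩ := h3
      refine ⟨i, ?_, rfl⟩
      rw [hJ]
      exact Finset.mem_filter.mpr ⟨Finset.mem_univ i, ha⟩
  have hcard : J.card = g.natDegree := by
    have h3 := hps.natDegree_eq_card_roots
    rw [hgm.natDegree_map] at h3
    rw [h3, ← hJr, Multiset.card_map]
    rfl
  have hi0 : i0 ∈ J := by
    rw [hJ, Finset.mem_filter]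
    refine ⟨Finset.mem_univ _, ?_⟩
    rw [mem_roots hpm.ne_zero]
    exact hgr
  obtain ⟨e, he⟩ : ∃ e : Fin g.natDegree ≃ J, e = (J.equivFinOfCardEq hcard).symm := ⟨_, rfl⟩
  refine ⟨g.natDegree, g, fun k => (e k : ι), e.symm ⟨i0, hi0⟩, hgm, rfl, hgi, ?_, ?_, ?_⟩
  · intro a b hab
    exact e.injective (Subtype.ext hab)
  · show ((e (e.symm ⟨i0, hi0⟩) : J) : ι) = i0
    rw [Equiv.apply_symm_apply]
  · have h4 : ∏ k, (X - C (z ((e k : J) : ι))) = ∏ i : J, (X - C (z (i : ι))) :=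
      e.prod_comp fun i : J => (X - C (z (i : ι)) : L[X])
    rw [h4, Finset.prod_coe_sort J fun i => (X - C (z i) : L[X])]
    rw [hprod, ← hJr, Multiset.map_map]
    rfl

end Pool.Agent.H87.TW
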