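import Pool.Agent.H87.TW.Defs

/-! # [H87 TW IRA] The array of a monic irreducible polynomial

`FQ D (arr g) = g.map (mapRingHom (Int.castRingHom ℚ))`: compare coefficients (`hdeg`: the coefficient of `y^j` has degree `≤ D - j`, it is `∑_(i < D+1-j) C (g_j)_i X^i`; for `j > D`, `g.coeff j = 0`).
Irreducible: `g` is monic and irreducible over `ℤ[X]`, a UFD, hence integrally closed; `Polynomial.Monic.irreducible_iff_irreducible_map_fraction_map` (or `IsPrimitive.irreducible_iff_irreducible_map_fraction_map`) with the fraction field `K` of `ℤ[X]` (take `K = RatFunc ℚ` or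
`K = FractionRing ℚ[X]`; it is a fraction field of `ℤ[X]` as well; if the instance is inconvenient use the MvPolynomial argument of `Pool/Agent/H97/NW/IRQ.lean`, theorem `irr_Q`, localisation at the nonzero integers: `ℚ[X][X]` is the localisation of `ℤ[X][X]` at `ℤ \ 0`, the ideal `(g)` is prime and does not meet
`ℤ \ 0`, so `g.map` generates a prime ideal).
ELEMENTARY ALTERNATIVE: if `g.map = u * v` over `ℚ[X]`, `u, v` monic of positive degree (divide by the unit leading coefficients; `g` monic), then by Gauss (`ℤ[X] ⊂ ℚ[X]`, `m u ∈ ℤ[X][X]` ..) `u, v ∈ ℤ[X][X]`. -/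

namespace Pool.Agent.H87.TW

open Finset Polynomial Pool.Agent.H72.ES Pool.Agent.H87.SA2 Pool.Agent.H8.AW Pool.Agent.H52.AC
  Pool.Agent.H97.NW Pool.Agent.H97.FB

private theorem ira_coeff (d : ℕ) (c : ℕ → ℕ → ℤ) (j k : ℕ) :
    ((FQ d c).coeff j).coeff k = if k + j ≤ d then ((c k j : ℤ) : ℚ) else 0 := by
  unfold FQ
  simp only [finsetSum_coeff, coeff_C_mul_X_pow]
  have h0 : ∀ b ∈ range (d + 1),
      (if j = b then ∑ i ∈ range (d + 1 - b), C ((c i b : ℤ) : ℚ) * X ^ i else (0 : ℚ[X])).coeff k =
      if j = b then (∑ i ∈ range (d + 1 - b), C ((c i b : ℤ) : ℚ) * X ^ i).coeff k else 0 := by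
    intro b _
    split_ifs
    · rfl
    · exact coeff_zero k
  rw [sum_congr rfl h0, sum_ite_eq]
  simp only [mem_range]
  by_cases h1 : j < d + 1
  · rw [if_pos h1, finsetSum_coeff]
    simp only [coeff_C_mul_X_pow]
    rw [sum_ite_eq]
    simp only [mem_range]
    by_cases h2 : k < d + 1 - j
    · rw [if_pos h2, if_pos (by omega)]
    · rw [if_neg h2, if_neg (by omega)]
  · rw [if_neg h1, if_neg (by omega)]

theorem arr_irr {D : ℕ} (g : ℤ[X][X]) (hg : g.Monic) (hD : g.natDegree = D) (h1 : 1 ≤ D)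
    (hdeg : ∀ j, (g.coeff j).natDegree ≤ D - j) (hi : Irreducible g) :
    Irreducible (FQ D (arr g)) := by
  have hFQ : FQ D (arr g) = g.map (mapRingHom (Int.castRingHom ℚ)) := by
    ext j k
    rw [ira_coeff, coeff_map, coe_mapRingHom, coeff_map]
    unfold arr
    split_ifs with h
    · rfl
    · have h2 : (g.coeff j).coeff k = 0 := by
        by_cases hj : D < j
        · rw [coeff_eq_zero_of_natDegree_lt (by omega : g.natDegree < j), coeff_zero]
        · refine coeff_eq_zero_of_natDegree_lt ?_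
          have := hdeg j
          omega
      rw [h2]
      simp
  rw [hFQ]
  have hK : Irreducible (g.map (algebraMap ℤ[X] (FractionRing ℤ[X]))) :=
    (hg.irreducible_iff_irreducible_map_fraction_map (K := FractionRing ℤ[X])).1 hi
  have hinj : Function.Injective (algebraMap ℤ[X] (FractionRing ℤ[X])) :=
    IsFractionRing.injective ℤ[X] (FractionRing ℤ[X])
  have : CharZero (FractionRing ℤ[X]) := charZero_of_injective_algebraMap hinj
  obtain ⟨ψ, hψ⟩ : ∃ ψ : ℚ[X] →+* FractionRing ℤ[X],
      ψ.comp (mapRingHom (Int.castRingHom ℚ)) = algebraMap ℤ[X] (FractionRing ℤ[X]) := by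
    refine ⟨eval₂RingHom (Rat.castHom _) (algebraMap ℤ[X] (FractionRing ℤ[X]) X), ?_⟩
    refine Polynomial.ringHom_ext' (RingHom.ext_int _ _) ?_
    simp
  refine Polynomial.Monic.irreducible_of_irreducible_map ψ _ (hg.map _) ?_
  rw [Polynomial.map_map, hψ]
  exact hK

end Pool.Agent.H87.TW
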