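import Pool.Agent.H87.TW.SYM

/-! # [H87 TW PRD] The product over the symmetric group (Mathlib and SYM only)

Let `φ : A → S` be injective, `p.map φ = ∏ (X - x_u)`, `q.map φ = ∏ (X - W_u)`. Then `∏_τ (X - ∑_u W_(τ u) x_u)` has coefficients in `φ(A)`.
PROOF. Step 1. Let `A1 = MvPolynomial (Fin n) A`, `S1 = MvPolynomial (Fin n) S` (variables `V_u`), `φ1 = MvPolynomial.map φ : A1 → S1`, and let
`F ∈ (MvPolynomial (Fin n) A1)[X]`, `F = ∏_τ (X - C (∑_u C (V_(τ u)) * X_u))`. Every coefficient `F.coeff j` is symmetric: for a permutation `π`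
`rename π (∑_u C (V_(τ u)) X_u) = ∑_u C (V_(τ u)) X_(π u) = ∑_u C (V_(τ π⁻¹ u)) X_u`, and `τ ↦ τ * π⁻¹` is a bijection (`Fintype.prod_equiv (Equiv.mulRight _)`; apply
`Polynomial.map (rename π)` to `F`). `sym_root φ1 (fun u => C (x u)) (p.map MvPolynomial.C)` (`(p.map C).map φ1 = (p.map φ).map C = ∏ (X - C (C (x u)))`) gives `a_j ∈ A1` with
`map φ a_j = ` the coefficient of `X^j` in `∏_τ (X - C (∑_u V_(τ u) * C (x u))) ∈ S1[X]` (`eval₂ φ1 (C ∘ x)` applied to `F`: `Polynomial.map_prod`, `coeff_map`).
Step 2. `a_j` is symmetric: for a permutation `π` of the variables `V`: `map φ (rename π a_j) = rename π (map φ a_j)` is the coefficient of `X^j` in `∏_τ (X - C (∑_u V_(π τ u) * C (x u)))`,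
the same product (`τ ↦ π * τ`), `= map φ a_j`, and `MvPolynomial.map φ` is injective (`MvPolynomial.map_injective φ hφ`).
Step 3. `sym_root φ W q a_j` gives `b_j ∈ A` with `eval₂ φ W a_j = φ b_j`; and `eval₂ φ W a_j = eval W (map φ a_j)` (`MvPolynomial.eval_map`) is the coefficient of `X^j` in `∏_τ (X - C (∑_u W (τ u) * x u))`.
Step 4. `N = n!` (`Fintype.card_perm`); the product is monic of degree `N`. `Φ = X^N + ∑_(j < N) C b_j X^j` (or: `Polynomial.lifts` / `Polynomial.lifts_iff_coeff_lifts`, `Polynomial.lifts_and_natDegree_eq_and_monic`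
(needs `Nontrivial`), and the coefficients are in the range of `φ`). `φ` injective, so `Φ` is monic and `natDegree Φ = N` (`natDegree_map_eq_of_injective`). -/

namespace Pool.Agent.H87.TW

open Finset Polynomial

section aux

variable {R : Type} [CommRing R]

/-- the generic product -/
private noncomputable def gprod {n : ℕ} (V Y : Fin n → R) : R[X] :=
  ∏ τ : Equiv.Perm (Fin n), (X - C (∑ u, V (τ u) * Y u))

private theorem gprod_map {R' : Type} [CommRing R'] (f : R →+* R') {n : ℕ} (V Y : Fin n → R) :
    (gprod V Y).map f = gprod (fun u => f (V u)) (fun u => f (Y u)) := by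
  unfold gprod
  rw [Polynomial.map_prod]
  refine Finset.prod_congr rfl fun τ _ => ?_
  rw [Polynomial.map_sub, map_X, map_C, map_sum]
  congr 2
  refine Finset.sum_congr rfl fun u _ => ?_
  rw [map_mul]

private theorem gprod_right {n : ℕ} (V Y : Fin n → R) (e : Equiv.Perm (Fin n)) :
    gprod V (fun u => Y (e u)) = gprod V Y := by
  unfold gprod
  refine Fintype.prod_equiv (Equiv.mulRight e⁻¹) _ _ fun τ => ?_
  congr 2
  refine Fintype.sum_equiv e _ _ fun u => ?_
  simp [Equiv.Perm.mul_apply]

private theorem gprod_left {n : ℕ} (V Y : Fin n → R) (e : Equiv.Perm (Fin n)) :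
    gprod (fun u => V (e u)) Y = gprod V Y := by
  unfold gprod
  refine Fintype.prod_equiv (Equiv.mulLeft e) _ _ fun τ => ?_
  congr 2

end aux

theorem prod_perm {A S : Type} [CommRing A] [CommRing S] [IsDomain S] (φ : A →+* S)
    (hφ : Function.Injective φ) {n : ℕ} (x W : Fin n → S) (p q : A[X])
    (hp : p.map φ = ∏ u, (X - C (x u))) (hq : q.map φ = ∏ u, (X - C (W u))) :
    ∃ Φ : A[X], Φ.Monic ∧ Φ.natDegree = n.factorial ∧
      Φ.map φ = ∏ τ : Equiv.Perm (Fin n), (X - C (∑ u, W (τ u) * x u)) := by
  classical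
  let φ1 : MvPolynomial (Fin n) A →+* MvPolynomial (Fin n) S := MvPolynomial.map φ
  let FF : (MvPolynomial (Fin n) (MvPolynomial (Fin n) A))[X] :=
    gprod (fun u => MvPolynomial.C (MvPolynomial.X u)) (fun u => MvPolynomial.X u)
  let P1 : (MvPolynomial (Fin n) S)[X] :=
    gprod (fun u => MvPolynomial.X u) (fun u => MvPolynomial.C (x u))
  have hp1 : (p.map MvPolynomial.C).map φ1 =
      ∏ u, (X - C (MvPolynomial.C (x u) : MvPolynomial (Fin n) S)) := by
    have h0 : φ1.comp MvPolynomial.C = (MvPolynomial.C : S →+* MvPolynomial (Fin n) S).comp φ := by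
      ext1 a
      exact MvPolynomial.map_C φ a
    rw [Polynomial.map_map, h0, ← Polynomial.map_map, hp, Polynomial.map_prod]
    refine Finset.prod_congr rfl fun u _ => ?_
    rw [Polynomial.map_sub, map_X, map_C]
  have hsymF : ∀ j, (FF.coeff j).IsSymmetric := by
    intro j e
    have h1 : FF.map (MvPolynomial.rename (R := MvPolynomial (Fin n) A) e).toRingHom = FF := by
      change (gprod _ _).map _ = _
      rw [gprod_map]
      have h2 : (fun u => (MvPolynomial.rename (R := MvPolynomial (Fin n) A) e).toRingHom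
          (MvPolynomial.C (MvPolynomial.X u))) =
          fun u => (MvPolynomial.C (MvPolynomial.X u) : MvPolynomial (Fin n) (MvPolynomial (Fin n) A)) := by
        funext u
        exact MvPolynomial.rename_C _ _
      have h3 : (fun u => (MvPolynomial.rename (R := MvPolynomial (Fin n) A) e).toRingHom
          (MvPolynomial.X u)) =
          fun u => (MvPolynomial.X (e u) : MvPolynomial (Fin n) (MvPolynomial (Fin n) A)) := by
        funext u
        exact MvPolynomial.rename_X _ _
      rw [h2, h3]
      exact gprod_right _ _ e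
    have h4 := congrArg (fun f => f.coeff j) h1
    simp only [coeff_map] at h4
    exact h4
  have ha : ∀ j, ∃ a : MvPolynomial (Fin n) A, P1.coeff j = φ1 a := by
    intro j
    obtain ⟨a, ha⟩ := sym_root φ1 (fun u => MvPolynomial.C (x u)) (p.map MvPolynomial.C) hp1
      (FF.coeff j) (hsymF j)
    refine ⟨a, ?_⟩
    rw [← ha]
    have h1 : FF.map (MvPolynomial.eval₂Hom φ1 (fun u => MvPolynomial.C (x u))) = P1 := by
      change (gprod _ _).map _ = _
      rw [gprod_map]
      have h2 : (fun u => MvPolynomial.eval₂Hom φ1 (fun u => MvPolynomial.C (x u))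
          (MvPolynomial.C (MvPolynomial.X u))) =
          fun u => (MvPolynomial.X u : MvPolynomial (Fin n) S) := by
        funext u
        rw [MvPolynomial.eval₂Hom_C]
        exact MvPolynomial.map_X φ u
      have h3 : (fun u => MvPolynomial.eval₂Hom φ1 (fun u => MvPolynomial.C (x u))
          (MvPolynomial.X u)) =
          fun u => (MvPolynomial.C (x u) : MvPolynomial (Fin n) S) := by
        funext u
        rw [MvPolynomial.eval₂Hom_X']
      rw [h2, h3]
    have h4 := congrArg (fun f => f.coeff j) h1
    simp only [coeff_map] at h4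
    exact h4.symm
  choose a ha using ha
  have hsyma : ∀ j, (a j).IsSymmetric := by
    intro j e
    apply MvPolynomial.map_injective φ hφ
    have h1 : P1.map (MvPolynomial.rename (R := S) e).toRingHom = P1 := by
      change (gprod _ _).map _ = _
      rw [gprod_map]
      have h2 : (fun u => (MvPolynomial.rename (R := S) e).toRingHom
          (MvPolynomial.X u)) =
          fun u => (MvPolynomial.X (e u) : MvPolynomial (Fin n) S) := by
        funext u
        exact MvPolynomial.rename_X _ _
      have h3 : (fun u => (MvPolynomial.rename (R := S) e).toRingHom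
          (MvPolynomial.C (x u))) =
          fun u => (MvPolynomial.C (x u) : MvPolynomial (Fin n) S) := by
        funext u
        exact MvPolynomial.rename_C _ _
      rw [h2, h3]
      exact gprod_left _ _ e
    have h4 := congrArg (fun f => f.coeff j) h1
    simp only [coeff_map] at h4
    have h5 : MvPolynomial.rename e (P1.coeff j) = P1.coeff j := h4
    rw [MvPolynomial.map_rename]
    have h6 : MvPolynomial.map φ (a j) = P1.coeff j := (ha j).symm
    rw [h6, h5]
  have hb : ∀ j, ∃ b : A, (gprod W x).coeff j = φ b := by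
    intro j
    obtain ⟨b, hb⟩ := sym_root φ W q hq (a j) (hsyma j)
    refine ⟨b, ?_⟩
    rw [← hb]
    have h1 : P1.map (MvPolynomial.eval W) = gprod W x := by
      change (gprod _ _).map _ = _
      rw [gprod_map]
      simp
    have h4 := congrArg (fun f => f.coeff j) h1
    simp only [coeff_map] at h4
    rw [← h4, ha j]
    exact MvPolynomial.eval_map φ W (a j)
  have hl : gprod W x ∈ Polynomial.lifts φ := by
    rw [Polynomial.lifts_iff_coeff_lifts]
    intro j
    obtain ⟨b, hb⟩ := hb j
    exact ⟨b, hb.symm⟩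
  have hm : (gprod W x).Monic := monic_prod_of_monic _ _ fun τ _ => monic_X_sub_C _
  have hd : (gprod W x).natDegree = n.factorial := by
    unfold gprod
    rw [natDegree_prod_of_monic _ _ fun τ _ => monic_X_sub_C _]
    simp only [natDegree_X_sub_C]
    rw [Finset.sum_const, Finset.card_univ, Fintype.card_perm, Fintype.card_fin, smul_eq_mul,
      mul_one]
  obtain ⟨Φ, h1, h2, h3⟩ := Polynomial.lifts_and_natDegree_eq_and_monic hl hm
  exact ⟨Φ, h3, by rw [h2, hd], h1⟩

end Pool.Agent.H87.TW
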