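import Pool.Agent.H87.TW.SYM
import Pool.Agent.H97.GA.Defs

/-! # [H87 TW SYN] The polynomial of the weights and the integer point

`w_poly`: `sym_root` (`SYM.lean`) with `A = ℤ`, `S = ℂ`, `x = θ` for the coefficients of `∏_u (X - C (wv n lam (X_u))) ∈ (MvPolynomial (Fin n) ℤ)[X]` (`wv` over the ring `MvPolynomial (Fin n) ℤ`, `map_wv`; the coefficients are symmetric: `rename π` permutes the factors). The integers `b_j` give a polynomial `q` (as in step 4 of
`PRD.lean`, `Polynomial.lifts_iff_coeff_lifts`).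
`tw_int`: `F = ∑_u wv n lam (X_u) * X_u` is symmetric. -/

namespace Pool.Agent.H87.TW

open Finset Polynomial Pool.Agent.H97.GA

theorem w_poly {n : ℕ} (p : ℤ[X]) (θ : Fin n → ℂ) (h : p.map (Int.castRingHom ℂ) = ∏ i, (X - C (θ i)))
    (lam : ℕ) : ∃ q : ℤ[X], q.map (Int.castRingHom ℂ) = ∏ u, (X - C (wv n lam (θ u))) := by
  obtain ⟨P, hP⟩ : ∃ P : (MvPolynomial (Fin n) ℤ)[X],
      P = ∏ u, (X - C (wv n lam (MvPolynomial.X u))) := ⟨_, rfl⟩
  have hsym : ∀ j, (P.coeff j).IsSymmetric := by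
    intro j e
    have h1 : P.map (MvPolynomial.rename e : MvPolynomial (Fin n) ℤ →ₐ[ℤ] _).toRingHom = P := by
      rw [hP, Polynomial.map_prod]
      rw [← Equiv.prod_comp e fun u => (X - C (wv n lam (MvPolynomial.X u)) :
        (MvPolynomial (Fin n) ℤ)[X])]
      refine prod_congr rfl fun u _ => ?_
      rw [Polynomial.map_sub, Polynomial.map_X, Polynomial.map_C, map_wv]
      congr 3
      exact MvPolynomial.rename_X _ _
    have h2 := congrArg (fun q => q.coeff j) h1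
    simp only [coeff_map] at h2
    exact h2
  have hmap : P.map (MvPolynomial.eval₂Hom (Int.castRingHom ℂ) θ) =
      ∏ u, (X - C (wv n lam (θ u))) := by
    rw [hP, Polynomial.map_prod]
    refine prod_congr rfl fun u _ => ?_
    rw [Polynomial.map_sub, Polynomial.map_X, Polynomial.map_C, map_wv]
    congr 3
    exact MvPolynomial.eval₂_X _ _ _
  have hl : (∏ u, (X - C (wv n lam (θ u))) : ℂ[X]) ∈ Polynomial.lifts (Int.castRingHom ℂ) := by
    rw [Polynomial.lifts_iff_coeff_lifts]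
    intro j
    obtain ⟨a, ha⟩ := sym_root (Int.castRingHom ℂ) θ p h (P.coeff j) (hsym j)
    refine ⟨a, ?_⟩
    rw [← ha, ← hmap, coeff_map]
    rfl
  exact (Polynomial.mem_lifts _).1 hl

theorem tw_int {n : ℕ} (p : ℤ[X]) (θ : Fin n → ℂ) (h : p.map (Int.castRingHom ℂ) = ∏ i, (X - C (θ i)))
    (lam : ℕ) : ∃ y : ℤ, (y : ℂ) = ∑ u, wv n lam (θ u) * θ u := by
  obtain ⟨F, hF⟩ : ∃ F : MvPolynomial (Fin n) ℤ,
      F = ∑ u, wv n lam (MvPolynomial.X u) * MvPolynomial.X u := ⟨_, rfl⟩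
  have hsym : F.IsSymmetric := by
    intro e
    rw [hF, map_sum]
    rw [← Equiv.sum_comp e fun u => (wv n lam (MvPolynomial.X u) * MvPolynomial.X u :
      MvPolynomial (Fin n) ℤ)]
    refine sum_congr rfl fun u _ => ?_
    rw [map_mul, MvPolynomial.rename_X]
    congr 1
    have h1 := map_wv (MvPolynomial.rename e : MvPolynomial (Fin n) ℤ →ₐ[ℤ] _).toRingHom n lam
      (MvPolynomial.X u)
    refine h1.trans ?_
    congr 1
    exact MvPolynomial.rename_X _ _
  obtain ⟨a, ha⟩ := sym_root (Int.castRingHom ℂ) θ p h F hsym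
  refine ⟨a, ?_⟩
  have h2 : MvPolynomial.eval₂ (Int.castRingHom ℂ) θ F = ∑ u, wv n lam (θ u) * θ u := by
    rw [hF, ← MvPolynomial.coe_eval₂Hom, map_sum]
    refine sum_congr rfl fun u _ => ?_
    rw [map_mul, map_wv, MvPolynomial.coe_eval₂Hom, MvPolynomial.eval₂_X]
  rw [← h2, ha]
  rfl

end Pool.Agent.H87.TW
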