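import Pool.Agent.H87.TW.Defs

/-! # [H87 TW LAU] Laurent series: the normal form

`iL` is injective (`HahnSeries.ofPowerSeries_injective`), `sL e q ≠ 0` (`1 ≤ q`: `(C q * X)^e ≠ 0` in the domain `ℂ⟦X⟧`).
`coeff_scale`: the coefficient of `X^j` in `∏_(i : Fin D) (X - C (a * b i))` is `a^(D-j)` times that of `∏ (X - C (b i))`, `j ≤ D` (`Polynomial.scaleRoots`: `∏ (X - C (a b_i)) = scaleRoots (∏ (X - C (b_i))) a`, `coeff_scaleRoots`; or `Multiset.prod_X_sub_C_coeff` and `esymm` of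
`s.map (a * ·)`; or induction on `D`).
`deg_bound`: let `k = natDegree (g.coeff j)`, suppose `D - j < k` (so `g.coeff j ≠ 0`, `j ≤ D`). `phL (g.coeff j) = (sL)⁻¹^(D-j) * iL w`, `w` = the coefficient of `X^j` of `∏ (X - C (Z i))` (`coeff_map`, `coeff_scale`, and `iL` is a ring hom). Multiply by `(sL)^k`:
`∑_(i ≤ k) c_i (sL)^(k-i) = (sL)^(k - (D - j)) * iL w`, `c_k ≠ 0`. Both sides are in the image of `iL`: with `t = (C q * X)^e`: `∑_(i ≤ k) c_i t^(k-i) = t^(k-(D-j)) w` in `ℂ⟦X⟧`; constant terms: `c_k = 0` as `1 ≤ e`, `1 ≤ k - (D - j)`. Contradiction.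
`arr_split`: by injectivity of `iL` (`Polynomial.map_injective`) compare the coefficients of `X^j` after applying `iL`: for `j ≤ D`: `iL (tq e q (∑_(i < D + 1 - j) C ((g_j)_i) X^(D-i-j))) = ∑_i (g_j)_i (sL)^(D-i-j) = (sL)^(D-j) phL (g_j)` (degree of `g_j` at most `D - j`), and
`(sL)^(D-j) (sL)⁻¹^(D-j) iL (coeff of ∏ (X - C (Z i))) = iL (..)`. For `j > D` both sides are `0`.
`fam_split`: `rv n 1 f = ∑_(i ≤ n) C (reflect (n - i) (f.coeff i)) X^i`, `pd.split`; for `i ≤ n`: `phL (f.coeff i) = (sL)⁻¹^(n-i) iL (tq (reflect (n-i) (f.coeff i)))` (`reflect`: `∑_j f_ij s^(n-i-j)`, degree `≤ n - i`), and `coeff_scale` again. (`rv_coeff` in `Pool/Agent/H97/FB/ANR.lean`.) `e, q` arbitrary. -/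

namespace Pool.Agent.H87.TW

open Finset Polynomial Pool.Agent.H72.ES Pool.Agent.H87.SA2 Pool.Agent.H8.AW Pool.Agent.H52.AC
  Pool.Agent.H97.NW Pool.Agent.H97.FB

theorem iL_inj : Function.Injective iL := HahnSeries.ofPowerSeries_injective

private theorem t_ne {e q : ℕ} (hq : 1 ≤ q) :
    ((PowerSeries.C (q : ℂ) * PowerSeries.X) ^ e : PowerSeries ℂ) ≠ 0 := by
  refine pow_ne_zero _ (mul_ne_zero ?_ PowerSeries.X_ne_zero)
  intro h
  have h1 := congrArg (PowerSeries.coeff 0) h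
  rw [PowerSeries.coeff_zero_C, map_zero] at h1
  have : q = 0 := by exact_mod_cast h1
  omega

theorem sL_ne {e q : ℕ} (hq : 1 ≤ q) : sL e q ≠ 0 := by
  unfold sL
  rw [Ne, map_eq_zero_iff iL iL_inj]
  exact t_ne hq

private theorem iL_tq (e q : ℕ) (p : ℤ[X]) :
    iL (tq e q p) = eval₂ (Int.castRingHom (LaurentSeries ℂ)) (sL e q) p := by
  unfold tq sL
  rw [coe_eval₂RingHom, hom_eval₂]
  congr 1
  exact RingHom.ext_int _ _

private theorem phL_eq {e q : ℕ} (hq : 1 ≤ q) (N : ℕ) (p : ℤ[X]) (hp : p.natDegree ≤ N) :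
    phL e q p = iL (tq e q (reflect N p)) * (sL e q)⁻¹ ^ N := by
  rw [iL_tq]
  letI : Invertible (sL e q)⁻¹ := invertibleOfNonzero (inv_ne_zero (sL_ne hq))
  have h := eval₂_reflect_mul_pow (Int.castRingHom (LaurentSeries ℂ)) (sL e q)⁻¹ N p hp
  rw [invOf_eq_inv, inv_inv] at h
  rw [h]
  rfl

theorem phL_inj {e q : ℕ} (he : 1 ≤ e) (hq : 1 ≤ q) : Function.Injective (phL e q) := by
  rw [injective_iff_map_eq_zero]
  intro p hp
  rw [phL_eq hq p.natDegree p le_rfl] at hp
  rcases mul_eq_zero.mp hp with h | h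
  · rw [map_eq_zero_iff iL iL_inj, map_eq_zero_iff _ (tq_injective he hq)] at h
    exact reflect_eq_zero_iff.mp h
  · exact absurd h (pow_ne_zero _ (inv_ne_zero (sL_ne hq)))

private theorem prod_scale {S : Type} [CommRing S] [IsDomain S] {ι : Type} (a : S) (b : ι → S)
    (s : Finset ι) :
    (∏ i ∈ s, (X - C (a * b i)) : S[X]) = scaleRoots (∏ i ∈ s, (X - C (b i))) a := by
  classical
  induction s using Finset.induction_on with
  | empty =>
    rw [prod_empty, prod_empty]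
    ext j
    rw [coeff_scaleRoots, coeff_one]
    split_ifs with h
    · subst h
      simp
    · simp
  | insert i s hi ih =>
    rw [prod_insert hi, prod_insert hi, mul_scaleRoots_of_noZeroDivisors, ih]
    congr 1
    ext j
    rw [coeff_scaleRoots, natDegree_X_sub_C, coeff_sub, coeff_sub, coeff_X, coeff_C, coeff_C]
    rcases j with _ | _ | j
    · simp [mul_comm]
    · simp
    · simp

theorem coeff_scale {S : Type} [CommRing S] [IsDomain S] {D : ℕ} (a : S) (b : Fin D → S) (j : ℕ) (hj : j ≤ D) :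
    (∏ i, (X - C (a * b i)) : S[X]).coeff j = a ^ (D - j) * (∏ i, (X - C (b i)) : S[X]).coeff j := by
  rw [prod_scale, coeff_scaleRoots, mul_comm]
  congr 2
  rw [natDegree_prod_of_monic _ _ (fun i _ => monic_X_sub_C _)]
  simp

private theorem coeff_big {S : Type} [CommRing S] [IsDomain S] {D : ℕ} (b : Fin D → S) (j : ℕ)
    (hj : D < j) : (∏ i, (X - C (b i)) : S[X]).coeff j = 0 := by
  refine coeff_eq_zero_of_natDegree_lt ?_
  rw [natDegree_prod_of_monic _ _ (fun i _ => monic_X_sub_C _)]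
  simpa using hj

private theorem map_prodC {D : ℕ} (Z : Fin D → PowerSeries ℂ) (j : ℕ) :
    (∏ i, (X - C (iL (Z i))) : (LaurentSeries ℂ)[X]).coeff j =
      iL ((∏ i, (X - C (Z i)) : (PowerSeries ℂ)[X]).coeff j) := by
  rw [← coeff_map, Polynomial.map_prod]
  simp

theorem deg_bound {e q : ℕ} (he : 1 ≤ e) (hq : 1 ≤ q) {D : ℕ} (g : ℤ[X][X]) (hD : g.natDegree = D)
    (Z : Fin D → PowerSeries ℂ) (hs : g.map (phL e q) = ∏ i, (X - C ((sL e q)⁻¹ * iL (Z i)))) (j : ℕ) :
    (g.coeff j).natDegree ≤ D - j := by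
  by_contra hcon
  push Not at hcon
  have hjD : j ≤ D := by
    by_contra hj
    push Not at hj
    have h0 : g.coeff j = 0 := coeff_eq_zero_of_natDegree_lt (by omega)
    rw [h0, natDegree_zero] at hcon
    omega
  obtain ⟨k, hk⟩ : ∃ k, k = (g.coeff j).natDegree := ⟨_, rfl⟩
  rw [← hk] at hcon
  have h1 := congrArg (fun P => P.coeff j) hs
  simp only [coeff_map] at h1
  rw [coeff_scale _ _ j hjD, map_prodC, phL_eq hq k _ hk.symm.le] at h1
  obtain ⟨w, hw⟩ : ∃ w, w = (∏ i, (X - C (Z i)) : (PowerSeries ℂ)[X]).coeff j := ⟨_, rfl⟩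
  rw [← hw] at h1
  have hsne := sL_ne (e := e) hq
  have h2 : iL (tq e q (reflect k (g.coeff j))) = sL e q ^ (k - (D - j)) * iL w := by
    have h3 : iL (tq e q (reflect k (g.coeff j))) * (sL e q)⁻¹ ^ k * sL e q ^ k =
        (sL e q)⁻¹ ^ (D - j) * iL w * sL e q ^ k := by rw [h1]
    rw [mul_assoc, ← mul_pow, inv_mul_cancel₀ hsne, one_pow, mul_one] at h3
    rw [h3]
    have h4 : k = (k - (D - j)) + (D - j) := by omega
    rw [h4, pow_add]
    have h5 : (sL e q)⁻¹ ^ (D - j) * sL e q ^ (D - j) = 1 := by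
      rw [← mul_pow, inv_mul_cancel₀ hsne, one_pow]
    have h6 : k - (D - j) + (D - j) - (D - j) = k - (D - j) := by omega
    rw [h6]
    calc (sL e q)⁻¹ ^ (D - j) * iL w * (sL e q ^ (k - (D - j)) * sL e q ^ (D - j))
        = ((sL e q)⁻¹ ^ (D - j) * sL e q ^ (D - j)) * (sL e q ^ (k - (D - j)) * iL w) := by ring
      _ = sL e q ^ (k - (D - j)) * iL w := by rw [h5, one_mul]
  have h7 : tq e q (reflect k (g.coeff j)) =
      ((PowerSeries.C (q : ℂ) * PowerSeries.X) ^ e) ^ (k - (D - j)) * w := by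
    apply iL_inj
    rw [h2, map_mul, map_pow]
    rfl
  have h8 := congrArg (PowerSeries.coeff 0) h7
  have h9 := tq_coeff e q he (reflect k (g.coeff j)) 0
  rw [mul_zero, pow_zero, one_mul, coeff_reflect, revAt_le (Nat.zero_le k), Nat.sub_zero] at h9
  rw [h9] at h8
  have h10 : PowerSeries.coeff 0 (((PowerSeries.C (q : ℂ) * PowerSeries.X) ^ e) ^ (k - (D - j)) * w)
      = 0 := by
    rw [PowerSeries.coeff_zero_eq_constantCoeff_apply, map_mul, map_pow, map_pow, map_mul,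
      PowerSeries.constantCoeff_X, mul_zero, zero_pow (by omega), zero_pow (by omega), zero_mul]
  rw [h10] at h8
  have h11 : (g.coeff j).coeff k = 0 := by exact_mod_cast h8
  rw [hk, coeff_natDegree, leadingCoeff_eq_zero] at h11
  rw [h11, natDegree_zero] at hk
  omega

private theorem coeff_fI {D : ℕ} (g : ℤ[X][X]) (hdeg : ∀ j, (g.coeff j).natDegree ≤ D - j)
    (j : ℕ) (hj : j ≤ D) : (fI D (arr g)).coeff j = reflect (D - j) (g.coeff j) := by
  unfold fI
  rw [finsetSum_coeff]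
  simp only [coeff_C_mul_X_pow]
  rw [Finset.sum_ite_eq (range (D + 1)) j, if_pos (mem_range.2 (by omega))]
  ext l
  rw [finsetSum_coeff, coeff_reflect]
  simp only [coeff_C_mul_X_pow, arr]
  by_cases hl : l ≤ D - j
  · rw [revAt_le hl, Finset.sum_eq_single (D - j - l)]
    · rw [if_pos (by omega)]
    · intro i hi hne
      rw [if_neg]
      rw [mem_range] at hi
      omega
    · intro hni
      rw [mem_range] at hni
      omega
  · push Not at hl
    rw [revAt_eq_self_of_lt hl, coeff_eq_zero_of_natDegree_lt (lt_of_le_of_lt (hdeg j) hl)]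
    apply Finset.sum_eq_zero
    intro i hi
    rw [if_neg]
    omega

private theorem coeff_fI' {D : ℕ} (F : ℕ → ℕ → ℤ) (j : ℕ) (hj : D < j) :
    (fI D F).coeff j = 0 := by
  unfold fI
  rw [finsetSum_coeff]
  simp only [coeff_C_mul_X_pow]
  rw [Finset.sum_ite_eq (range (D + 1)) j, if_neg (fun h => by have := mem_range.1 h; omega)]

theorem arr_split {e q : ℕ} (he : 1 ≤ e) (hq : 1 ≤ q) {D : ℕ} (g : ℤ[X][X]) (hm : g.Monic)
    (hD : g.natDegree = D) (hdeg : ∀ j, (g.coeff j).natDegree ≤ D - j) (Z : Fin D → PowerSeries ℂ)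
    (hs : g.map (phL e q) = ∏ i, (X - C ((sL e q)⁻¹ * iL (Z i)))) :
    (fI D (arr g)).map (tq e q) = ∏ i, (X - C (Z i)) := by
  ext1 j
  rw [coeff_map]
  by_cases hj : j ≤ D
  · rw [coeff_fI g hdeg j hj]
    apply iL_inj
    have h1 := congrArg (fun P => P.coeff j) hs
    simp only [coeff_map] at h1
    rw [coeff_scale _ _ j hj, map_prodC, phL_eq hq (D - j) _ (hdeg j), mul_comm] at h1
    exact mul_left_cancel₀ (pow_ne_zero _ (inv_ne_zero (sL_ne hq))) h1
  · push Not at hj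
    rw [coeff_fI' _ j hj, coeff_big _ j hj, map_zero]

private theorem rv_coeff1 {n m : ℕ} {f : ℤ[X][X]} {i : ℕ} (hi : i ≤ n) :
    (rv n m f).coeff i = reflect (m * (n - i)) (f.coeff i) := by
  unfold rv
  rw [finsetSum_coeff]
  simp only [coeff_C_mul_X_pow]
  rw [Finset.sum_ite_eq (range (n + 1)) i, if_pos (mem_range.2 (by omega))]

theorem fam_split {n : ℕ} {f : ℤ[X][X]} (hm : f.Monic) (hd : f.natDegree = n)
    (hc : ∀ i, (f.coeff i).natDegree ≤ n - i) (pd : PData (rv n 1 f) n) :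
    f.map (phL pd.e pd.q) = ∏ u, (X - C ((sL pd.e pd.q)⁻¹ * iL (pd.x u))) := by
  ext1 j
  rw [coeff_map]
  by_cases hj : j ≤ n
  · rw [coeff_scale _ _ j hj, map_prodC, ← pd.split, coeff_map, rv_coeff1 hj, one_mul,
      phL_eq pd.q_pos (n - j) _ (hc j), mul_comm]
  · push Not at hj
    rw [coeff_big _ j hj, coeff_eq_zero_of_natDegree_lt (by omega), map_zero]

end Pool.Agent.H87.TW
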