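import Pool.Agent.H87.TW.Defs
import Pool.Agent.H52.AC.EVH

/-! # [H87 TW GRO] The twisted series: constant terms, integrality, growth, values

`coeff k (Zt W x τ) = ∑_u W (τ u) * coeff k (x u)` (`PowerSeries.coeff_C_mul`). `zt_growth`: `≤ ∑_u V * R^(k+1) = n V R R^k`. `zt_int`: `IsIntegral.sum`, `.mul`.
`zt_ev`: `evz T` is a ring homomorphism on the convergent series (`evH`, `cvz`, `gr_of_le`, `gr_C` of `Pool/Agent/H52/AC/EVH.lean`), or termwise: `HasSum` of each `coeff k (x u) * T^k` (`‖·‖ ≤ R (R ‖T‖)^k`, summable), `tsum_mul_left`, `Summable.tsum_finsetSum`. -/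

namespace Pool.Agent.H87.TW

open Finset Polynomial Pool.Agent.H87.SA2 Pool.Agent.H8.AW Pool.Agent.H52.AC

variable {n : ℕ}

theorem zt_coeff (W : Fin n → ℂ) (x : Fin n → PowerSeries ℂ) (τ : Equiv.Perm (Fin n)) (k : ℕ) :
    PowerSeries.coeff k (Zt W x τ) = ∑ u, W (τ u) * PowerSeries.coeff k (x u) := by
  unfold Zt
  rw [map_sum]
  refine sum_congr rfl fun u _ => ?_
  rw [PowerSeries.coeff_C_mul]

theorem zt_growth (W : Fin n → ℂ) (x : Fin n → PowerSeries ℂ) {V R : ℝ} (hV0 : 0 ≤ V) (hR0 : 0 ≤ R)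
    (hV : ∀ u, ‖W u‖ ≤ V) (hR : ∀ u k, ‖PowerSeries.coeff k (x u)‖ ≤ R ^ (k + 1))
    (τ : Equiv.Perm (Fin n)) (k : ℕ) : ‖PowerSeries.coeff k (Zt W x τ)‖ ≤ n * V * R * R ^ k := by
  rw [zt_coeff]
  refine (norm_sum_le _ _).trans ?_
  have h1 : ∀ u ∈ (univ : Finset (Fin n)), ‖W (τ u) * PowerSeries.coeff k (x u)‖ ≤
      V * R ^ (k + 1) := by
    intro u _
    rw [norm_mul]
    exact mul_le_mul (hV _) (hR u k) (norm_nonneg _) hV0
  refine (sum_le_sum h1).trans (le_of_eq ?_)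
  rw [sum_const, card_univ, Fintype.card_fin, nsmul_eq_mul, pow_succ]
  ring

theorem zt_int (W : Fin n → ℂ) (x : Fin n → PowerSeries ℂ) (hW : ∀ u, IsIntegral ℤ (W u))
    (hx : ∀ u k, IsIntegral ℤ (PowerSeries.coeff k (x u))) (τ : Equiv.Perm (Fin n)) (k : ℕ) :
    IsIntegral ℤ (PowerSeries.coeff k (Zt W x τ)) := by
  rw [zt_coeff]
  exact IsIntegral.sum _ fun u _ => (hW _).mul (hx u k)

theorem zt_ev (W : Fin n → ℂ) (x : Fin n → PowerSeries ℂ) {R : ℝ} (hR0 : 0 ≤ R)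
    (hR : ∀ u k, ‖PowerSeries.coeff k (x u)‖ ≤ R ^ (k + 1)) (τ : Equiv.Perm (Fin n)) {T : ℂ}
    (hT : R * ‖T‖ < 1) : evz T (Zt W x τ) = ∑ u, W (τ u) * evz T (x u) := by
  have hG : ∀ u, Gr ‖T‖ (x u) := fun u =>
    gr_of_le (C := R) hR0 (norm_nonneg _) hT fun m => by
      rw [mul_comm R, ← pow_succ]
      exact hR u m
  have h1 := map_sum (evH ‖T‖ (norm_nonneg _) T le_rfl)
    (fun u : Fin n => (⟨PowerSeries.C (W (τ u)), gr_C _ _⟩ : cvz ‖T‖ (norm_nonneg _)) *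
      ⟨x u, hG u⟩) univ
  rw [evH_apply] at h1
  have h2 : ((∑ u : Fin n, (⟨PowerSeries.C (W (τ u)), gr_C _ _⟩ : cvz ‖T‖ (norm_nonneg _)) *
      ⟨x u, hG u⟩ : cvz ‖T‖ (norm_nonneg _)) : PowerSeries ℂ) = Zt W x τ := by
    have h3 := map_sum (cvz ‖T‖ (norm_nonneg _)).subtype
      (fun u : Fin n => (⟨PowerSeries.C (W (τ u)), gr_C _ _⟩ : cvz ‖T‖ (norm_nonneg _)) *
        ⟨x u, hG u⟩) univ
    exact h3
  rw [h2] at h1
  rw [h1]
  refine sum_congr rfl fun u _ => ?_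
  rw [map_mul, evH_apply, evH_apply, evz_C]

end Pool.Agent.H87.TW
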