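import Pool.Agent.H87.TW.Defs
import Pool.Agent.H52.AC.FI

/-! # [H87 TW SPR] The values of the branches, relaxed growth

`split_rlx`: the proof of `split_at` in `Pool/Agent/H52/AC/SPL.lean` (copy `spl_comp`, `spl_mapsplit`) with `gr_of_le` applied to the bound `U * ρ^k`.
`evy_rlx`: `t = (q T)^e`, `t x = 1`. `split_rlx` evaluated at `t y = y / x`: `∏_j (y/x - evz T (x j)) = 0`, so `evt .. = 0` (`fI_eval` of `Pool/Agent/H52/AC/FI.lean`) and `ev d F x y = 0` (`ev_eq_evt`, cast to `ℂ`; or `fI_eval` of `Pool/Agent/H8/AW/Pt.lean`).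
`evy`: as in `uniq_branch` (`FI.lean`): derivative of the product at the root `y/x`: `∑_i ∏_(j ≠ i)`; only the term `i` survives and is `∏_(j ≠ i) (y/x - evz T (x j)) ≠ 0` by uniqueness (`Polynomial.derivative_prod`, `eval`); `fI_deriv` gives `t^(d-1) evy = ` this product. -/

namespace Pool.Agent.H87.TW

open Finset Polynomial Pool.Agent.H72.ES Pool.Agent.H87.SA2 Pool.Agent.H8.AW Pool.Agent.H52.AC

private theorem sprl_comp {A B : Type*} [CommRing A] [CommRing B] (φ : A →+* B) (t : A) :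
    φ.comp (eval₂RingHom (Int.castRingHom A) t) = eval₂RingHom (Int.castRingHom B) (φ t) := by
  refine Polynomial.ringHom_ext' ?_ ?_
  · exact RingHom.ext_int _ _
  · rw [RingHom.comp_apply, coe_eval₂RingHom, coe_eval₂RingHom, eval₂_X, eval₂_X]

private theorem sprl_mapsplit {f : ℤ[X][X]} {d : ℕ} {A B : Type*} [CommRing A] [CommRing B]
    (φ : A →+* B) (t : A) (x : Fin d → A)
    (hs : f.map (eval₂RingHom (Int.castRingHom A) t) = ∏ i, (X - C (x i))) :
    f.map (eval₂RingHom (Int.castRingHom B) (φ t)) = ∏ i, (X - C (φ (x i))) := by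
  have h1 := congrArg (Polynomial.map φ) hs
  rw [Polynomial.map_map, sprl_comp, Polynomial.map_prod] at h1
  rw [h1]
  refine prod_congr rfl fun i _ => ?_
  rw [Polynomial.map_sub, Polynomial.map_X, Polynomial.map_C]

theorem split_rlx {f : ℤ[X][X]} {d : ℕ} (pd : PData f d) {U ρ : ℝ} (hU : 0 ≤ U) (hρ : 0 ≤ ρ)
    (hg : ∀ i k, ‖PowerSeries.coeff k (pd.x i)‖ ≤ U * ρ ^ k) {T : ℂ} (hT : ρ * ‖T‖ < 1) :
    f.map (eval₂RingHom (Int.castRingHom ℂ) (((pd.q : ℂ) * T) ^ pd.e)) =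
      ∏ i, (X - C (evz T (pd.x i))) := by
  have hr : 0 ≤ ‖T‖ := norm_nonneg T
  let S : cvz ‖T‖ hr := ⟨PowerSeries.X, gr_X _⟩
  let c : cvz ‖T‖ hr := ⟨PowerSeries.C (pd.q : ℂ), gr_C _ _⟩
  let y : Fin d → cvz ‖T‖ hr := fun i => ⟨pd.x i, gr_of_le hρ hr hT (C := U) fun m => hg i m⟩
  have hinj : Function.Injective (cvz ‖T‖ hr).subtype := Subtype.val_injective
  have h1 : f.map (eval₂RingHom (Int.castRingHom (cvz ‖T‖ hr)) ((c * S) ^ pd.e)) =
      ∏ i, (X - C (y i)) := by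
    apply Polynomial.map_injective _ hinj
    rw [Polynomial.map_map, sprl_comp, Polynomial.map_prod]
    refine Eq.trans ?_ (pd.split.trans ?_)
    · unfold tq
      congr 2
    · refine prod_congr rfl fun i _ => ?_
      rw [Polynomial.map_sub, Polynomial.map_X, Polynomial.map_C]
      rfl
  have h2 := sprl_mapsplit (evH ‖T‖ hr T le_rfl) _ _ h1
  have hS : evH ‖T‖ hr T le_rfl S = T := evz_X T
  have hc : evH ‖T‖ hr T le_rfl c = (pd.q : ℂ) := evz_C T _
  rw [map_pow, map_mul, hS, hc] at h2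
  exact h2

theorem evy_rlx {d : ℕ} {F : ℕ → ℕ → ℤ} (pd : PData (fI d F) d) {U ρ : ℝ} (hU : 0 ≤ U) (hρ : 0 ≤ ρ)
    (hg : ∀ i k, ‖PowerSeries.coeff k (pd.x i)‖ ≤ U * ρ ^ k) {T : ℂ} (hT : ρ * ‖T‖ < 1) {x y : ℤ}
    (hTx : ((pd.q : ℂ) * T) ^ pd.e * (x : ℂ) = 1) {i : Fin d}
    (hi : evz T (pd.x i) = (y : ℂ) / (x : ℂ))
    (huniq : ∀ j, evz T (pd.x j) = (y : ℂ) / (x : ℂ) → j = i) :
    ev d F x y = 0 ∧ evy d F x y ≠ 0 := by
  classical
  have hx : (x : ℂ) ≠ 0 := right_ne_zero_of_mul_eq_one hTx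
  obtain ⟨t, ht⟩ : ∃ t : ℂ, t = ((pd.q : ℂ) * T) ^ pd.e := ⟨_, rfl⟩
  have hyx : (y : ℂ) / (x : ℂ) = t * y := by
    rw [div_eq_iff hx, mul_right_comm, ht, hTx, one_mul]
  have hsp := split_rlx pd hU hρ hg hT
  rw [← ht] at hsp hTx
  have ht1 : t = 1 / (x : ℂ) := by
    rw [eq_div_iff hx]
    exact hTx
  have hfac : (∏ k, (X - C (evz T (pd.x k))) : ℂ[X]) = (X - C (evz T (pd.x i))) *
      ∏ k ∈ univ.erase i, (X - C (evz T (pd.x k))) :=
    (mul_prod_erase univ (fun k => (X - C (evz T (pd.x k)) : ℂ[X])) (mem_univ i)).symm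
  refine ⟨?_, ?_⟩
  · have h1 : evt d (cst ℂ F) t (t * y) = 0 := by
      rw [← H52.AC.fI_eval, hsp, hfac, eval_mul, eval_sub, eval_X, eval_C, hi, hyx, sub_self,
        zero_mul]
    have h2 := ev_eq_evt d (cst ℂ F) (x : ℂ) (y : ℂ) (t := t) hTx
    rw [h1, mul_zero] at h2
    have h3 := ev_map (Int.castRingHom ℂ) d F x y
    simp only [eq_intCast] at h3
    have h4 : ((ev d F x y : ℤ) : ℂ) = 0 := h3.trans h2
    exact_mod_cast h4
  · intro h0
    have h1 := fI_deriv d F (x := (x : ℂ)) (y := (y : ℂ)) (t := t) hTx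
    have h2 : evy d (cst ℂ F) (x : ℂ) (y : ℂ) = ((evy d F x y : ℤ) : ℂ) := by
      unfold evy cst
      push_cast
      rfl
    rw [h2, h0, Int.cast_zero, mul_zero, ← derivative_map, hsp, ← hyx, hfac, derivative_mul,
      derivative_sub, derivative_X, derivative_C, sub_zero, one_mul, eval_add, eval_mul, eval_sub,
      eval_X, eval_C, hi, sub_self, zero_mul, add_zero, eval_prod, prod_eq_zero_iff] at h1
    obtain ⟨k, hk, hk0⟩ := h1
    rw [eval_sub, eval_X, eval_C, sub_eq_zero] at hk0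
    exact (mem_erase.1 hk).1 (huniq k hk0.symm)

end Pool.Agent.H87.TW
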