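import Pool.Agent.H97.GA.Defs

/-! # [H87 TW LAM] The choice of the weight (only the definition of `wv` is used)

`wv n lam y = ∑_(k < n) lam^k y^k`. For permutations `τ ≠ τ'` the polynomial `P = ∑_(k < n) (∑_u (θ_(τ u)^k - θ_(τ' u)^k) gam_u) Y^k` is not zero: otherwise `∑_v θ_v^k (gam_(τ⁻¹ v) - gam_(τ'⁻¹ v)) = 0` for all `k < n` (`Equiv.sum_comp`), and the Vandermonde matrix of the different `θ_v` is invertible
(`Matrix.det_vandermonde_ne_zero_iff`, `Matrix.eq_zero_of_mulVec_eq_zero` or `Matrix.vandermonde` lemmas), so `gam (τ⁻¹ v) = gam (τ'⁻¹ v)` for all `v`, `τ = τ'` (`gam` injective). Its value at `lam` is `∑_u wv (θ (τ u)) gam_u - ∑_u wv (θ (τ' u)) gam_u`. In the same way with `θ` instead of `gam` and `τ' = 1`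
for the second statement. A nonzero polynomial of degree `< n` has fewer than `n` roots, so all but at most `n * ((n!)^2 + n!)` natural numbers `lam` are admissible: take `Λ = n * ((n!)^2 + n!)`: the set of the bad `lam ∈ range (Λ + 1)` is contained in the union over the pairs `(τ, τ')` of the roots (finset
`(P.roots.toFinset)`, the cast `ℕ → ℂ` is injective), of cardinality at most `Λ`. -/

namespace Pool.Agent.H87.TW

open Finset Pool.Agent.H97.GA

/-- the number of the weights which are zeros of one nonzero linear combination -/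
private theorem lam_card (n : ℕ) (θ c : Fin n → ℂ) (hθ : Function.Injective θ) (hc : c ≠ 0)
    (M : ℕ) : ((range M).filter fun lam => ∑ v, wv n lam (θ v) * c v = 0).card ≤ n := by
  classical
  obtain ⟨P, hP⟩ : ∃ P : Polynomial ℂ, P = ∑ k ∈ range n,
      Polynomial.C (∑ v, c v * θ v ^ k) * Polynomial.X ^ k := ⟨_, rfl⟩
  have h1 : P ≠ 0 := by
    intro h0
    apply hc
    apply Matrix.eq_zero_of_forall_pow_sum_mul_pow_eq_zero hθ
    intro i
    have h2 : P.coeff i = ∑ v, c v * θ v ^ (i : ℕ) := by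
      rw [hP, Polynomial.finsetSum_coeff]
      simp only [Polynomial.coeff_C_mul, Polynomial.coeff_X_pow]
      rw [Finset.sum_eq_single (i : ℕ)]
      · rw [if_pos rfl, mul_one]
      · intro k _ hk
        rw [if_neg (Ne.symm hk), mul_zero]
      · intro hi
        exact absurd (mem_range.mpr i.isLt) hi
    rw [← h2, h0, Polynomial.coeff_zero]
  have h3 : P.natDegree ≤ n := by
    rw [hP]
    apply Polynomial.natDegree_sum_le_of_forall_le
    intro k hk
    exact (Polynomial.natDegree_C_mul_X_pow_le _ _).trans (mem_range.mp hk).le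
  have h4 : ∀ lam : ℕ, P.eval (lam : ℂ) = ∑ v, wv n lam (θ v) * c v := by
    intro lam
    rw [hP, Polynomial.eval_finsetSum]
    simp only [Polynomial.eval_mul, Polynomial.eval_C, Polynomial.eval_pow, Polynomial.eval_X]
    unfold wv
    simp only [Finset.sum_mul]
    rw [Finset.sum_comm]
    apply Finset.sum_congr rfl
    intro v _
    apply Finset.sum_congr rfl
    intro k _
    ring
  have h5 : ((range M).filter fun lam => ∑ v, wv n lam (θ v) * c v = 0).card ≤
      P.roots.toFinset.card := by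
    apply Finset.card_le_card_of_injOn (fun lam : ℕ => (lam : ℂ))
    · intro lam hlam
      have h6 := (mem_filter.mp hlam).2
      have h7 : (lam : ℂ) ∈ P.roots.toFinset := by
        rw [Multiset.mem_toFinset, Polynomial.mem_roots h1, Polynomial.IsRoot, h4]
        exact h6
      exact h7
    · intro a _ b _ hab
      exact Nat.cast_injective hab
  exact h5.trans ((Multiset.toFinset_card_le _).trans ((Polynomial.card_roots' P).trans h3))

/-- change of the index -/
private theorem lam_idx (n : ℕ) (w : Fin n → ℂ) (g : Fin n → ℂ) (τ : Equiv.Perm (Fin n)) :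
    ∑ u, w (τ u) * g u = ∑ v, w v * g (τ⁻¹ v) := by
  rw [← Equiv.sum_comp τ (fun v => w v * g (τ⁻¹ v))]
  apply Finset.sum_congr rfl
  intro u _
  rw [show τ⁻¹ (τ u) = u from Equiv.symm_apply_apply τ u]

theorem exists_lam (n : ℕ) : ∃ Λ : ℕ, ∀ (θ gam : Fin n → ℂ), Function.Injective θ →
    Function.Injective gam → ∃ lam ≤ Λ,
      (Function.Injective fun τ : Equiv.Perm (Fin n) => ∑ u, wv n lam (θ (τ u)) * gam u) ∧
      ∀ τ : Equiv.Perm (Fin n), τ ≠ 1 →
        ∑ u, wv n lam (θ (τ u)) * θ u ≠ ∑ u, wv n lam (θ u) * θ u := by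
  classical
  obtain ⟨Λ, hΛ⟩ : ∃ Λ : ℕ, Λ = (Fintype.card (Equiv.Perm (Fin n) × Equiv.Perm (Fin n)) +
      Fintype.card (Equiv.Perm (Fin n))) * n := ⟨_, rfl⟩
  refine ⟨Λ, fun θ gam hθ hgam => ?_⟩
  obtain ⟨B1, hB1⟩ : ∃ B1 : Finset (Equiv.Perm (Fin n) × Equiv.Perm (Fin n)), B1 =
      univ.filter fun q => q.1 ≠ q.2 := ⟨_, rfl⟩
  obtain ⟨B2, hB2⟩ : ∃ B2 : Finset (Equiv.Perm (Fin n)), B2 = univ.filter fun τ => τ ≠ 1 :=
    ⟨_, rfl⟩
  obtain ⟨U1, hU1⟩ : ∃ U1 : Finset ℕ, U1 = B1.biUnion fun q => (range (Λ + 1)).filter fun lam =>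
      ∑ v, wv n lam (θ v) * (gam (q.1⁻¹ v) - gam (q.2⁻¹ v)) = 0 := ⟨_, rfl⟩
  obtain ⟨U2, hU2⟩ : ∃ U2 : Finset ℕ, U2 = B2.biUnion fun τ => (range (Λ + 1)).filter fun lam =>
      ∑ v, wv n lam (θ v) * (θ (τ⁻¹ v) - θ v) = 0 := ⟨_, rfl⟩
  have h1 : U1.card ≤ Fintype.card (Equiv.Perm (Fin n) × Equiv.Perm (Fin n)) * n := by
    rw [hU1]
    refine (Finset.card_biUnion_le_card_mul _ _ n ?_).trans
      (Nat.mul_le_mul_right n (Finset.card_le_univ _))
    intro q hq
    apply lam_card n θ _ hθ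
    intro h0
    rw [hB1, mem_filter] at hq
    apply hq.2
    have h2 : q.1⁻¹ = q.2⁻¹ := by
      apply Equiv.ext
      intro v
      apply hgam
      have h3 := congrFun h0 v
      exact sub_eq_zero.mp h3
    exact inv_injective h2
  have h2 : U2.card ≤ Fintype.card (Equiv.Perm (Fin n)) * n := by
    rw [hU2]
    refine (Finset.card_biUnion_le_card_mul _ _ n ?_).trans
      (Nat.mul_le_mul_right n (Finset.card_le_univ _))
    intro τ hτ
    apply lam_card n θ _ hθ
    intro h0
    rw [hB2, mem_filter] at hτ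
    apply hτ.2
    have h2 : τ⁻¹ = 1 := by
      apply Equiv.ext
      intro v
      apply hθ
      have h3 := congrFun h0 v
      exact sub_eq_zero.mp h3
    exact inv_eq_one.mp h2
  obtain ⟨lam, hl1, hl2⟩ : ∃ lam ∈ range (Λ + 1), lam ∉ U1 ∪ U2 := by
    by_contra hcon
    push Not at hcon
    have h3 : (range (Λ + 1)).card ≤ (U1 ∪ U2).card := Finset.card_le_card hcon
    have h4 := Finset.card_union_le U1 U2
    rw [card_range] at h3
    have h5 : Λ = Fintype.card (Equiv.Perm (Fin n) × Equiv.Perm (Fin n)) * n +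
      Fintype.card (Equiv.Perm (Fin n)) * n := by rw [hΛ, add_mul]
    omega
  rw [mem_union, not_or] at hl2
  refine ⟨lam, by have := mem_range.mp hl1; omega, ?_, ?_⟩
  · intro τ τ' hττ
    by_contra hne
    apply hl2.1
    rw [hU1, mem_biUnion]
    refine ⟨(τ, τ'), by rw [hB1, mem_filter]; exact ⟨mem_univ _, hne⟩, ?_⟩
    rw [mem_filter]
    refine ⟨hl1, ?_⟩
    have h3 : ∑ u, wv n lam (θ (τ u)) * gam u = ∑ u, wv n lam (θ (τ' u)) * gam u := hττ
    rw [lam_idx n (fun v => wv n lam (θ v)) gam τ, lam_idx n (fun v => wv n lam (θ v)) gam τ'] at h3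
    simp only [mul_sub, Finset.sum_sub_distrib]
    exact sub_eq_zero.mpr h3
  · intro τ hτ h3
    apply hl2.2
    rw [hU2, mem_biUnion]
    refine ⟨τ, by rw [hB2, mem_filter]; exact ⟨mem_univ _, hτ⟩, ?_⟩
    rw [mem_filter]
    refine ⟨hl1, ?_⟩
    rw [lam_idx n (fun v => wv n lam (θ v)) θ τ] at h3
    simp only [mul_sub, Finset.sum_sub_distrib]
    exact sub_eq_zero.mpr h3

end Pool.Agent.H87.TW
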