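import Pool.Agent.H87.TW.BIA
import Pool.Agent.H97.TU.Defs2
import Pool.Agent.H97.FB.MON

/-! # [H87 TW BIN] THEOREM U+: a root of the centre at infinity (helper87)

`f ∈ ℤ[t][Z]` of degree `n` in `Z`, the coefficient `g` of `t^m` squarefree of degree `n` or `n - 1`.
`f1 = Z^n f(t, c + 1/Z)` with an integer `0 ≤ c ≤ n`, `g(c) ≠ 0`: the coefficient of `t^m` has degree `n`; its
irreducible factors are of degree one or correspond to factors of `g` with the same fields. -/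

namespace Pool.Agent.H87.TW

open Finset Polynomial Pool.Agent.H97.FB Pool.Agent.H97.TU

/-- the same as `Fbr` in `Pool/Agent/H8/TM` -/
def FbrX (C d m A : ℕ) (f : ℤ[X][X]) (G : ℤ[X]) : Prop :=
  ∃ B a : ℕ, 3 ≤ f.natDegree ∧ f.natDegree ≤ d ∧ (∀ i, (f.coeff i).natDegree ≤ m) ∧
    (ldU m f).natDegree = f.natDegree ∧ Squarefree ((ldU m f).map (Int.castRingHom ℚ)) ∧
    Irreducible (f.map (mapRingHom (Int.castRingHom ℂ))) ∧
    (∀ i j, |(f.coeff i).coeff j| ≤ (B : ℤ)) ∧ 2 ≤ B ∧ B ^ C ≤ a ∧ a ≤ A ∧ G = fa f a ∧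
    Irreducible (G.map (Int.castRingHom ℚ))

/-- `FbrX` with a centre of degree `n` or `n - 1` -/
def Fbr' (C d m A : ℕ) (f : ℤ[X][X]) (G : ℤ[X]) : Prop :=
  ∃ B a : ℕ, 3 ≤ f.natDegree ∧ f.natDegree ≤ d ∧ (∀ i, (f.coeff i).natDegree ≤ m) ∧
    f.natDegree ≤ (ldU m f).natDegree + 1 ∧ Squarefree ((ldU m f).map (Int.castRingHom ℚ)) ∧
    Irreducible (f.map (mapRingHom (Int.castRingHom ℂ))) ∧
    (∀ i j, |(f.coeff i).coeff j| ≤ (B : ℤ)) ∧ 2 ≤ B ∧ B ^ C ≤ a ∧ a ≤ A ∧ G = fa f a ∧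
    Irreducible (G.map (Int.castRingHom ℚ))

theorem ldU_coeff (m : ℕ) (f : ℤ[X][X]) (i : ℕ) : (ldU m f).coeff i = (f.coeff i).coeff m := by
  unfold ldU
  simp only [finsetSum_coeff, coeff_C_mul, coeff_X_pow]
  by_cases hi : i ∈ range (f.natDegree + 1)
  · rw [sum_eq_single i]
    · simp
    · intro b _ hb
      rw [if_neg (fun h => hb h.symm), mul_zero]
    · intro h
      exact absurd hi h
  · have h1 : f.coeff i = 0 := coeff_eq_zero_of_natDegree_lt (by
      rw [mem_range] at hi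
      omega)
    rw [h1, coeff_zero]
    refine sum_eq_zero fun b hb => ?_
    rw [if_neg, mul_zero]
    rintro rfl
    exact hi hb

theorem ldU_natDegree_le (m : ℕ) (f : ℤ[X][X]) : (ldU m f).natDegree ≤ f.natDegree := by
  rw [natDegree_le_iff_coeff_eq_zero]
  intro i hi
  rw [ldU_coeff, coeff_eq_zero_of_natDegree_lt hi, coeff_zero]

/-- the coefficient of `t^m` of the transform -/
theorem ldU_mob {n m : ℕ} {f : ℤ[X][X]} (hf : f.natDegree ≤ n) (c : ℤ) :
    ldU m (mob n (C c) f) = mob n c (ldU m f) := by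
  have hg : (ldU m f).natDegree ≤ n := (ldU_natDegree_le m f).trans hf
  ext i
  rw [ldU_coeff]
  by_cases hi : i ≤ n
  · rw [mob_coeff n _ _ hi, mob_coeff n _ _ hi, tay_coeff (C c) hf, tay_coeff c hg, finsetSum_coeff]
    refine sum_congr rfl fun k _ => ?_
    rw [ldU_coeff, ← C_pow, coeff_mul_C, ← C_eq_natCast, coeff_C_mul]
  · rw [mob_coeff_gt _ hf (by omega), mob_coeff_gt _ hg (by omega), coeff_zero]

/-- degree and size of the coefficients of the transform -/
theorem mob_deg {n m : ℕ} {f : ℤ[X][X]} (hf : f.natDegree ≤ n) (hm : ∀ i, (f.coeff i).natDegree ≤ m)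
    (c : ℤ) (i : ℕ) : ((mob n (C c) f).coeff i).natDegree ≤ m := by
  by_cases hi : i ≤ n
  · rw [mob_coeff n _ _ hi, tay_coeff (C c) hf]
    refine natDegree_sum_le_of_forall_le _ _ fun k _ => ?_
    rw [← C_pow, ← C_eq_natCast]
    exact (natDegree_mul_C_le _ _).trans ((natDegree_C_mul_le _ _).trans (hm k))
  · rw [mob_coeff_gt _ hf (by omega), natDegree_zero]
    exact Nat.zero_le _

theorem mob_size {n B : ℕ} {f : ℤ[X][X]} (hf : f.natDegree ≤ n)
    (hB : ∀ i j, |(f.coeff i).coeff j| ≤ (B : ℤ)) {c : ℕ} (hc : c ≤ n) (i j : ℕ) :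
    |((mob n (C (c : ℤ)) f).coeff i).coeff j| ≤ (((n + 1) * (2 ^ n * B * (n + 1) ^ n) : ℕ) : ℤ) := by
  by_cases hi : i ≤ n
  · rw [mob_coeff n _ _ hi, tay_coeff (C (c : ℤ)) hf, finsetSum_coeff]
    refine (abs_sum_le_sum_abs _ _).trans ?_
    have h1 : ∀ k ∈ range (n + 1), |(((k.choose (n - i) : ℕ) : ℤ[X]) * f.coeff k *
        C (c : ℤ) ^ (k - (n - i))).coeff j| ≤ ((2 ^ n * B * (n + 1) ^ n : ℕ) : ℤ) := by
      intro k hk
      have hkn : k ≤ n := by
        have := mem_range.1 hk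
        omega
      rw [← C_pow, coeff_mul_C, ← C_eq_natCast, coeff_C_mul, abs_mul, abs_mul]
      push_cast
      have e1 : |((k.choose (n - i) : ℕ) : ℤ)| ≤ (2 : ℤ) ^ n := by
        rw [abs_of_nonneg (Int.natCast_nonneg _)]
        have h2 : k.choose (n - i) ≤ 2 ^ n :=
          (Nat.choose_le_two_pow k (n - i)).trans (Nat.pow_le_pow_right (by norm_num) hkn)
        exact_mod_cast h2
      have e2 : |(c : ℤ) ^ (k - (n - i))| ≤ ((n : ℤ) + 1) ^ n := by
        rw [abs_of_nonneg (by positivity)]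
        have h2 : c ^ (k - (n - i)) ≤ (n + 1) ^ n :=
          (Nat.pow_le_pow_left (by omega) _).trans (Nat.pow_le_pow_right (by omega) (by omega))
        exact_mod_cast h2
      exact mul_le_mul (mul_le_mul e1 (hB k j) (abs_nonneg _) (by positivity)) e2 (abs_nonneg _)
        (by positivity)
    refine (sum_le_sum h1).trans ?_
    rw [sum_const, card_range, nsmul_eq_mul]
    push_cast
    exact le_rfl
  · rw [mob_coeff_gt _ hf (by omega), coeff_zero, abs_zero]
    exact Int.natCast_nonneg _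

/-- an integer where a polynomial does not vanish -/
theorem exists_eval_ne {n : ℕ} {g : ℤ[X]} (h0 : g ≠ 0) (hg : g.natDegree ≤ n) :
    ∃ c : ℕ, c ≤ n ∧ g.eval (c : ℤ) ≠ 0 := by
  by_contra hcon
  push Not at hcon
  apply h0
  refine eq_zero_of_natDegree_lt_card_of_eval_eq_zero' g
    ((range (n + 1)).image fun c : ℕ => (c : ℤ)) ?_ ?_
  · intro i hi
    obtain ⟨c, hc, rfl⟩ := mem_image.1 hi
    exact hcon c (by have := mem_range.1 hc; omega)
  · rw [card_image_of_injective _ Nat.cast_injective, card_range]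
    omega

/-- the factors of the transform of the centre -/
theorem mob_fac {n : ℕ} {g : ℤ[X]} (hg : g.natDegree ≤ n) {c : ℤ} {p1 : ℚ[X]}
    (h1 : Irreducible p1) (hd : p1 ∣ (mob n c g).map (Int.castRingHom ℚ))
    (hr : ∃ x : ℝ, aeval x p1 = 0) : p1.natDegree = 1 ∨
    ∃ p : ℚ[X], Irreducible p ∧ p ∣ g.map (Int.castRingHom ℚ) ∧ (∃ x : ℝ, aeval x p = 0) ∧
      p.natDegree = p1.natDegree ∧
      ∀ q : ℚ[X], (∃ φ : ℚ[X], p ∣ q.comp φ) → ∃ φ : ℚ[X], p1 ∣ q.comp φ := by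
  by_cases hdeg : p1.natDegree = 1
  · exact Or.inl hdeg
  right
  obtain ⟨x, hx⟩ := hr
  have hp10 : p1 ≠ 0 := h1.ne_zero
  have hx0 : x ≠ 0 := by
    intro h
    rw [h] at hx
    have h2 := minpoly.dvd ℚ (0 : ℝ) hx
    rw [minpoly.zero] at h2
    have h3 : Associated p1 X := ((irreducible_X (R := ℚ)).associated_of_dvd h1 h2).symm
    apply hdeg
    rw [natDegree_eq_of_degree_eq (degree_eq_degree_of_associated h3), natDegree_X]
  have hxi : IsIntegral ℚ x := isAlgebraic_iff_isIntegral.1 ⟨p1, hp10, hx⟩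
  -- the number `c + 1/x`
  obtain ⟨z, hz⟩ : ∃ z : ℝ, z = algebraMap ℚ ℝ (c : ℚ) + x⁻¹ := ⟨_, rfl⟩
  have hgQ : (g.map (Int.castRingHom ℚ)).natDegree ≤ n := natDegree_map_le.trans hg
  have hmm : (mob n c g).map (Int.castRingHom ℚ) = mob n (c : ℚ) (g.map (Int.castRingHom ℚ)) := by
    rw [mob_map, eq_intCast]
  rw [hmm] at hd
  have hgz : aeval z (g.map (Int.castRingHom ℚ)) = 0 := by
    rw [hz]
    refine mob_root' (c : ℚ) hgQ hx0 ?_
    obtain ⟨w, hw⟩ := hd
    rw [hw, map_mul, hx, zero_mul]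
  have hint : IsIntegral ℚ z := by
    rw [hz]
    exact isIntegral_algebraMap.add (IsIntegral.inv hxi)
  have hfld : IntermediateField.adjoin ℚ {z} = IntermediateField.adjoin ℚ {x} := by
    refine le_antisymm ?_ ?_
    · rw [IntermediateField.adjoin_simple_le_iff, hz]
      exact add_mem (IntermediateField.algebraMap_mem _ _)
        (inv_mem (IntermediateField.mem_adjoin_simple_self ℚ x))
    · rw [IntermediateField.adjoin_simple_le_iff]
      have h4 : x = (z - algebraMap ℚ ℝ (c : ℚ))⁻¹ := by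
        rw [hz, add_sub_cancel_left, inv_inv]
      rw [h4]
      exact inv_mem (sub_mem (IntermediateField.mem_adjoin_simple_self ℚ z)
        (IntermediateField.algebraMap_mem _ _))
  refine ⟨minpoly ℚ z, minpoly.irreducible hint, minpoly.dvd ℚ z hgz, ⟨z, minpoly.aeval ℚ z⟩, ?_, ?_⟩
  · rw [← IntermediateField.adjoin.finrank hint, hfld, IntermediateField.adjoin.finrank hxi,
      ← minpoly.eq_of_irreducible h1 hx, natDegree_mul_C]
    exact inv_ne_zero (leadingCoeff_ne_zero.2 hp10)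
  · rintro q ⟨φ, hφ⟩
    have h2 : aeval z φ ∈ IntermediateField.adjoin ℚ {x} := by
      rw [← hfld]
      have h3 := aeval_algHom_apply (IntermediateField.adjoin ℚ {z}).val
        (IntermediateField.AdjoinSimple.gen ℚ z) φ
      have h4 : (IntermediateField.adjoin ℚ {z}).val (IntermediateField.AdjoinSimple.gen ℚ z) = z :=
        rfl
      rw [h4] at h3
      rw [h3]
      exact (aeval (IntermediateField.AdjoinSimple.gen ℚ z) φ).2
    rw [← IntermediateField.mem_toSubalgebra,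
      IntermediateField.adjoin_simple_toSubalgebra_of_isAlgebraic hxi.isAlgebraic,
      Algebra.adjoin_singleton_eq_range_aeval] at h2
    obtain ⟨φ1, hφ1⟩ := h2
    have h5 : aeval x φ1 = aeval z φ := hφ1
    refine ⟨φ1, ?_⟩
    obtain ⟨w, hw⟩ := hφ
    have h6 : aeval x (q.comp φ1) = 0 := by
      rw [aeval_comp, h5, ← aeval_comp, hw, map_mul, minpoly.aeval, zero_mul]
    have h7 := minpoly.dvd ℚ x h6
    rw [← minpoly.eq_of_irreducible h1 hx] at h7
    exact (dvd_mul_right p1 _).trans h7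

/-- a root of the centre at infinity is moved to a finite place -/
theorem bin (d m : ℕ) : ∃ k : ℕ, ∀ (C A : ℕ) (f : ℤ[X][X]) (G : ℤ[X]), 1 ≤ C →
    Fbr' (k * C) d m A f G → ∃ (f1 : ℤ[X][X]) (G1 : ℤ[X]), FbrX C d m A f1 G1 ∧
      (∀ (K : Type) [Field K] [CharZero K] (θ : K), aeval θ G = 0 → ∃ θ1 : K, aeval θ1 G1 = 0) ∧
      f1.natDegree = f.natDegree ∧
      ∀ p1 : ℚ[X], Irreducible p1 → p1 ∣ (ldU m f1).map (Int.castRingHom ℚ) →
        (∃ x : ℝ, aeval x p1 = 0) → p1.natDegree = 1 ∨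
        ∃ p : ℚ[X], Irreducible p ∧ p ∣ (ldU m f).map (Int.castRingHom ℚ) ∧
          (∃ x : ℝ, aeval x p = 0) ∧ p.natDegree = p1.natDegree ∧
          ∀ q : ℚ[X], (∃ φ : ℚ[X], p ∣ q.comp φ) → ∃ φ : ℚ[X], p1 ∣ q.comp φ := by
  refine ⟨(d + 1) ^ 2, ?_⟩
  rintro C A f _ hC ⟨B, a, h3, hfd, hfm, hld, hsq, hfi, hfB, hB2, hBa, haA, rfl, hirr⟩
  obtain ⟨n, hn⟩ : ∃ n, n = f.natDegree := ⟨_, rfl⟩
  obtain ⟨g, hg⟩ : ∃ g, g = ldU m f := ⟨_, rfl⟩
  have hgd : g.natDegree ≤ n := by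
    rw [hg, hn]
    exact ldU_natDegree_le m f
  rw [← hg, ← hn] at hld
  rw [← hg] at hsq
  rw [← hn] at h3 hfd
  have hg0 : g ≠ 0 := by
    rintro h
    rw [h, natDegree_zero] at hld
    omega
  obtain ⟨c, hcn, hc⟩ := exists_eval_ne hg0 hgd
  have hfn : f.natDegree ≤ n := hn.ge
  obtain ⟨f1, hf1⟩ : ∃ f1, f1 = mob n (Polynomial.C (c : ℤ)) f := ⟨_, rfl⟩
  have hld1 : ldU m f1 = mob n (c : ℤ) g := by
    rw [hf1, hg]
    exact ldU_mob hfn c
  have hfc : f.eval (Polynomial.C (c : ℤ)) ≠ 0 := by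
    intro h
    apply hc
    have h2 := ldU_coeff m f1 n
    rw [hld1, mob_lead, hf1, mob_lead, h, coeff_zero] at h2
    exact h2
  have hf1n : f1.natDegree = n := by
    rw [hf1]
    exact mob_natDegree hfn hfc
  have hG1 : fa f1 a = mob n (c : ℤ) (fa f a) := by
    rw [hf1]
    unfold fa
    rw [mob_map]
    congr 1
    rw [coe_evalRingHom, eval_C]
  -- the parameter is large
  have hBlt : B < a := by
    have h1 : B ^ 2 ≤ a := by
      refine (Nat.pow_le_pow_right (by omega) ?_).trans hBa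
      calc 2 ≤ (d + 1) ^ 2 := by nlinarith
        _ = (d + 1) ^ 2 * 1 := (mul_one _).symm
        _ ≤ (d + 1) ^ 2 * C := Nat.mul_le_mul_left _ hC
    nlinarith
  have hGn : (fa f a).natDegree = n := by
    rw [hn]
    unfold fa
    refine natDegree_map_of_leadingCoeff_ne_zero _ ?_
    refine mo_nz ?_ (hfB _) hBlt
    intro h
    have h2 : f = 0 := leadingCoeff_eq_zero.1 h
    rw [h2, natDegree_zero] at hn
    omega
  have hGQ : ((fa f a).map (Int.castRingHom ℚ)).natDegree = n := by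
    rw [natDegree_map_eq_of_injective (RingHom.injective_int _), hGn]
  have hGc : ((fa f a).map (Int.castRingHom ℚ)).eval (c : ℚ) ≠ 0 := by
    intro h
    have h2 := degree_eq_one_of_irreducible_of_root hirr h
    have h4 : ((fa f a).map (Int.castRingHom ℚ)).natDegree = 1 := natDegree_eq_of_degree_eq_some h2
    rw [hGQ] at h4
    omega
  have hGc' : (fa f a).eval (c : ℤ) ≠ 0 := by
    intro h
    apply hGc
    have h2 : ((fa f a).map (Int.castRingHom ℚ)).eval ((Int.castRingHom ℚ) (c : ℤ)) = 0 := by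
      rw [eval_map_apply, h, map_zero]
    rw [eq_intCast, Int.cast_natCast] at h2
    exact h2
  -- the size
  obtain ⟨B1, hB1⟩ : ∃ B1, B1 = (n + 1) * (2 ^ n * B * (n + 1) ^ n) := ⟨_, rfl⟩
  have hBn : n + 1 ≤ B ^ n := by
    refine (Nat.succ_le_of_lt n.lt_two_pow_self).trans (Nat.pow_le_pow_left hB2 n)
  have hB1le : B1 ≤ B ^ (d + 1) ^ 2 := by
    rw [hB1]
    calc (n + 1) * (2 ^ n * B * (n + 1) ^ n) ≤ B ^ n * (B ^ n * B * (B ^ n) ^ n) :=
          Nat.mul_le_mul hBn (Nat.mul_le_mul (Nat.mul_le_mul_right _ (Nat.pow_le_pow_left hB2 n))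
            (Nat.pow_le_pow_left hBn n))
      _ = B ^ ((n + 1) ^ 2) := by
          rw [← pow_mul, ← pow_succ, ← pow_add, ← pow_add]
          congr 1
          ring
      _ ≤ B ^ (d + 1) ^ 2 := Nat.pow_le_pow_right (by omega) (Nat.pow_le_pow_left (by omega) 2)
  have hB12 : 2 ≤ B1 := by
    rw [hB1]
    have h1 : 1 ≤ 2 ^ n := Nat.one_le_two_pow
    have h2 : 1 ≤ (n + 1) ^ n := Nat.one_le_pow _ _ (by omega)
    have h4 : 2 ≤ 2 ^ n * B := by nlinarith
    have h5 : 2 ≤ 2 ^ n * B * (n + 1) ^ n := by nlinarith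
    nlinarith
  refine ⟨f1, fa f1 a, ⟨B1, a, by omega, by omega, ?_, ?_, ?_, ?_, ?_, hB12, ?_, haA, rfl, ?_⟩, ?_,
    by rw [hf1n, hn], ?_⟩
  · intro i
    rw [hf1]
    exact mob_deg hfn hfm c i
  · rw [hld1, hf1n]
    exact mob_natDegree hgd hc
  · rw [hld1, mob_map]
    refine mob_sqf (natDegree_map_le.trans hgd) ?_ ?_ hsq
    · rw [natDegree_map_eq_of_injective (RingHom.injective_int _)]
      exact hld
    · rw [eval_map_apply]
      rw [eq_intCast]
      exact_mod_cast hc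
  · rw [hf1, mob_map]
    have hinj : Function.Injective (mapRingHom (Int.castRingHom ℂ)) :=
      map_injective _ (RingHom.injective_int _)
    refine mob_irr ?_ ?_ hfi
    · rw [natDegree_map_eq_of_injective hinj, hn]
    · rw [eval_map_apply]
      exact fun h => hfc ((map_eq_zero_iff _ hinj).1 h)
  · intro i j
    rw [hf1, hB1]
    exact mob_size hfn hfB hcn i j
  · refine (Nat.pow_le_pow_left hB1le C).trans ?_
    rw [← pow_mul]
    exact hBa
  · rw [hG1, mob_map]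
    rw [eq_intCast, Int.cast_natCast]
    exact mob_irr hGQ hGc hirr
  · intro K _ _ θ hθ
    have hne : θ - algebraMap ℤ K (c : ℤ) ≠ 0 := by
      intro h
      have h2 : θ = algebraMap ℤ K (c : ℤ) := sub_eq_zero.1 h
      rw [h2, aeval_algebraMap_apply] at hθ
      rw [algebraMap_int_eq, eq_intCast] at hθ
      apply hGc'
      have h4 : ((((fa f a).eval (c : ℤ) : ℤ)) : K) = 0 := by
        rw [← hθ]
        simp [aeval_def]
      exact_mod_cast h4
    refine ⟨(θ - algebraMap ℤ K (c : ℤ))⁻¹, ?_⟩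
    rw [hG1]
    exact mob_root (c : ℤ) hGn.le hne hθ
  · intro p1 h1 hd hr
    rw [hld1] at hd
    rw [← hg]
    exact mob_fac hgd h1 hd hr

end Pool.Agent.H87.TW
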