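import Pool.Agent.H87.TW.PRD
import Pool.Agent.H87.TW.FAC
import Pool.Agent.H87.TW.LAU
import Pool.Agent.H87.TW.IRA
import Pool.Agent.H87.TW.SYN
import Pool.Agent.H87.TW.GRO

/-! # [H87 TW ALG] The twisted curve: the algebra (assembly)

`A = ℤ[X]`, `S = LaurentSeries ℂ`, `φ = phL 1 q` (injective), `p = f` (`fam_split`, `pd.e = 1`), `x_u = (sL 1 q)⁻¹ * iL (pd.x u)`, `W_u = iL (C (w_u))`, `w_u = wv n lam (Q.th a u)`, the polynomial `(w_poly ..).map C ∈ ℤ[X][X]` (`w_poly` with `Rts (fa f a) (Q.th a)`; `(C z : ℤ[X]) ↦ (z : S)`).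
`prod_perm` gives `Φ`, with roots `∑_u W (τ u) * x u = (sL)⁻¹ * iL (Zt w pd.x τ)` (`map_sum`, `mul_sum`). These are different for different `τ` (`iL` injective, constant terms: `zt_coeff` with `k = 0` and `hinj`). `exists_fac` (`ι = Equiv.Perm (Fin n)`, `i0 = 1`) gives `D, g, j, k0`; `D ≤ card ι = n!` (`j` injective).
`deg_bound`, `arr_split`, `arr_irr` for `F = arr g`; `F 0 D = 1` (`g` monic, `coeff D = 1`); `F i k = 0` for `D < i + k` by the degree bound (`k ≤ D`), or `g.coeff k = 0` (`k > D`). -/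

namespace Pool.Agent.H87.TW

open Finset Polynomial Pool.Agent.H72.ES Pool.Agent.H87.SA2 Pool.Agent.H8.AW Pool.Agent.H52.AC
  Pool.Agent.H97.NW Pool.Agent.H97.FB Pool.Agent.H97.GA

theorem exists_alg {n B : ℕ} {f : ℤ[X][X]} (Q : UnR n B f) (a lam : ℕ) (hθ : Rts (fa f a) (Q.th a))
    (hinj : Function.Injective fun τ : Equiv.Perm (Fin n) =>
      ∑ u, wv n lam (Q.th a (τ u)) * PowerSeries.coeff 0 (Q.pd.x u)) :
    ∃ (D : ℕ) (F : ℕ → ℕ → ℤ) (j : Fin D → Equiv.Perm (Fin n)) (k0 : Fin D), D ≤ n.factorial ∧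
      F 0 D = 1 ∧ (∀ i k, D < i + k → F i k = 0) ∧ Irreducible (FQ D F) ∧ Function.Injective j ∧
      j k0 = 1 ∧ (fI D F).map (tq 1 Q.pd.q) =
        ∏ k, (X - C (Zt (fun u => wv n lam (Q.th a u)) Q.pd.x (j k))) := by
  classical
  obtain ⟨q, hqd⟩ : ∃ q, q = Q.pd.q := ⟨_, rfl⟩
  have hq1 : 1 ≤ q := hqd ▸ Q.pd.q_pos
  obtain ⟨w, hw⟩ : ∃ w : Fin n → ℂ, w = fun u => wv n lam (Q.th a u) := ⟨_, rfl⟩
  rw [← hqd, ← hw]
  -- the polynomial of the weights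
  obtain ⟨qw, hqw⟩ := w_poly (fa f a) (Q.th a) hθ.1 lam
  -- the two splittings over the Laurent series
  have hp : f.map (phL 1 q) = ∏ u, (X - C ((sL 1 q)⁻¹ * iL (Q.pd.x u))) := by
    have h1 := fam_split Q.monic Q.deg Q.cdeg Q.pd
    rw [Q.e1, ← hqd] at h1
    exact h1
  have hqq : (qw.map (C : ℤ →+* ℤ[X])).map (phL 1 q) =
      ∏ u, (X - C (iL (PowerSeries.C (w u)))) := by
    rw [Polynomial.map_map]
    have h1 : (phL 1 q).comp (C : ℤ →+* ℤ[X]) =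
        (iL.comp (PowerSeries.C : ℂ →+* PowerSeries ℂ)).comp (Int.castRingHom ℂ) :=
      Subsingleton.elim _ _
    rw [h1, ← Polynomial.map_map, hqw, Polynomial.map_prod]
    refine prod_congr rfl fun u _ => ?_
    rw [Polynomial.map_sub, Polynomial.map_X, Polynomial.map_C, hw]
    rfl
  obtain ⟨Φ, hΦ1, -, hΦ3⟩ := prod_perm (phL 1 q) (phL_inj le_rfl hq1)
    (fun u => (sL 1 q)⁻¹ * iL (Q.pd.x u)) (fun u => iL (PowerSeries.C (w u))) f
    (qw.map (C : ℤ →+* ℤ[X])) hp hqq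
  have hz : ∀ τ : Equiv.Perm (Fin n), ∑ u, iL (PowerSeries.C (w (τ u))) *
      ((sL 1 q)⁻¹ * iL (Q.pd.x u)) = (sL 1 q)⁻¹ * iL (Zt w Q.pd.x τ) := by
    intro τ
    unfold Zt
    rw [map_sum, mul_sum]
    refine sum_congr rfl fun u _ => ?_
    rw [map_mul]
    ring
  have hΦs : Φ.map (phL 1 q) =
      ∏ τ : Equiv.Perm (Fin n), (X - C ((sL 1 q)⁻¹ * iL (Zt w Q.pd.x τ))) := by
    rw [hΦ3]
    refine prod_congr rfl fun τ _ => ?_
    rw [← hz τ]
  have hs0 : (sL 1 q)⁻¹ ≠ 0 := inv_ne_zero (sL_ne hq1)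
  have hZinj : Function.Injective fun τ : Equiv.Perm (Fin n) =>
      (sL 1 q)⁻¹ * iL (Zt w Q.pd.x τ) := by
    intro τ τ' h
    have h1 := iL_inj (mul_left_cancel₀ hs0 h)
    apply hinj
    have h2 := congrArg (PowerSeries.coeff 0) h1
    rw [zt_coeff, zt_coeff] at h2
    rw [hw] at h2
    exact h2
  obtain ⟨D, g, j, k0, hg1, hg2, hg3, hj, hk0, hg4⟩ := exists_fac (phL 1 q)
    (fun τ : Equiv.Perm (Fin n) => (sL 1 q)⁻¹ * iL (Zt w Q.pd.x τ)) hZinj Φ hΦ1 hΦs 1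
  have hD1 : 1 ≤ D := by
    have := k0.2
    omega
  have hdeg : ∀ i, (g.coeff i).natDegree ≤ D - i :=
    deg_bound le_rfl hq1 g hg2 (fun k => Zt w Q.pd.x (j k)) hg4
  refine ⟨D, arr g, j, k0, ?_, ?_, ?_, arr_irr g hg1 hg2 hD1 hdeg hg3, hj, hk0,
    arr_split le_rfl hq1 g hg1 hg2 hdeg (fun k => Zt w Q.pd.x (j k)) hg4⟩
  · have h1 := Fintype.card_le_of_injective j hj
    rwa [Fintype.card_fin, Fintype.card_perm, Fintype.card_fin] at h1
  · unfold arr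
    have h1 : g.coeff D = 1 := by
      rw [← hg2]
      exact hg1.coeff_natDegree
    rw [h1, coeff_one_zero]
  · intro i k hik
    unfold arr
    by_cases hk : k ≤ D
    · apply coeff_eq_zero_of_natDegree_lt
      have := hdeg k
      omega
    · rw [coeff_eq_zero_of_natDegree_lt (by omega : g.natDegree < k), coeff_zero]

end Pool.Agent.H87.TW
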