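import Mathlib

/-! # [H87 TW BIA] The Moebius transform `Z ↦ c + 1/Z` of polynomials of degree at most `n` (helper87) -/

namespace Pool.Agent.H87.TW

open Finset Polynomial

variable {R : Type} [CommRing R]

/-- `Z^n f(c + 1/Z)` -/
noncomputable def mob (n : ℕ) (c : R) (f : R[X]) : R[X] := reflect n (taylor c f)

theorem mob_coeff (n : ℕ) (c : R) (f : R[X]) {i : ℕ} (hi : i ≤ n) :
    (mob n c f).coeff i = (taylor c f).coeff (n - i) := by
  unfold mob
  rw [coeff_reflect, revAt_le hi]

theorem mob_coeff_gt {n : ℕ} (c : R) {f : R[X]} (hf : f.natDegree ≤ n) {i : ℕ} (hi : n < i) :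
    (mob n c f).coeff i = 0 := by
  unfold mob
  rw [coeff_reflect, revAt_eq_self_of_lt hi]
  exact coeff_eq_zero_of_natDegree_lt (by rw [natDegree_taylor]; omega)

theorem mob_lead (n : ℕ) (c : R) (f : R[X]) : (mob n c f).coeff n = f.eval c := by
  rw [mob_coeff n c f le_rfl, Nat.sub_self, taylor_coeff_zero]

theorem mob_natDegree_le {n : ℕ} (c : R) {f : R[X]} (hf : f.natDegree ≤ n) :
    (mob n c f).natDegree ≤ n := by
  rw [natDegree_le_iff_coeff_eq_zero]
  exact fun i hi => mob_coeff_gt c hf hi

theorem mob_natDegree {n : ℕ} {c : R} {f : R[X]} (hf : f.natDegree ≤ n) (hc : f.eval c ≠ 0) :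
    (mob n c f).natDegree = n := by
  refine le_antisymm (mob_natDegree_le c hf) (le_natDegree_of_ne_zero ?_)
  rwa [mob_lead]

theorem mob_map {S : Type} [CommRing S] (φ : R →+* S) (n : ℕ) (c : R) (f : R[X]) :
    (mob n c f).map φ = mob n (φ c) (f.map φ) := by
  unfold mob
  ext i
  rw [coeff_map, coeff_reflect, coeff_reflect, ← map_taylor, coeff_map]

/-- the coefficients of the Taylor expansion -/
theorem tay_coeff {N : ℕ} (r : R) {f : R[X]} (hN : f.natDegree ≤ N) (i : ℕ) :
    (taylor r f).coeff i = ∑ k ∈ range (N + 1), (k.choose i : R) * f.coeff k * r ^ (k - i) := by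
  rw [taylor_coeff, hasseDeriv_apply, sum_over_range' _ _ (N + 1) (by omega), eval_finsetSum]
  · refine sum_congr rfl fun k _ => ?_
    rw [eval_monomial]
  · intro k
    rw [mul_zero, monomial_zero_right]

/-- the value -/
theorem mob_aeval {K : Type} [Field K] [Algebra R K] {n : ℕ} (c : R) {f : R[X]}
    (hf : f.natDegree ≤ n) {θ : K} (hθ : θ - algebraMap R K c ≠ 0) :
    aeval (θ - algebraMap R K c)⁻¹ (mob n c f) * (θ - algebraMap R K c) ^ n = aeval θ f := by
  obtain ⟨x, hx⟩ : ∃ x, x = θ - algebraMap R K c := ⟨_, rfl⟩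
  rw [← hx] at hθ ⊢
  let _ : Invertible x := invertibleOfNonzero hθ
  have h1 := eval₂_reflect_mul_pow (algebraMap R K) x n (taylor c f) (by rw [natDegree_taylor]; exact hf)
  rw [invOf_eq_inv] at h1
  rw [aeval_def]
  unfold mob
  rw [h1, taylor_apply, eval₂_comp, eval₂_add, eval₂_X, eval₂_C, hx, sub_add_cancel, aeval_def]

theorem mob_root {K : Type} [Field K] [Algebra R K] {n : ℕ} (c : R) {f : R[X]}
    (hf : f.natDegree ≤ n) {θ : K} (hθ : θ - algebraMap R K c ≠ 0) (h0 : aeval θ f = 0) :
    aeval (θ - algebraMap R K c)⁻¹ (mob n c f) = 0 := by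
  have h1 := mob_aeval c hf hθ
  rw [h0] at h1
  exact (mul_eq_zero.1 h1).resolve_right (pow_ne_zero n hθ)

theorem mob_root' {K : Type} [Field K] [Algebra R K] {n : ℕ} (c : R) {f : R[X]}
    (hf : f.natDegree ≤ n) {z : K} (hz : z ≠ 0) (h0 : aeval z (mob n c f) = 0) :
    aeval (algebraMap R K c + z⁻¹) f = 0 := by
  have h1 : algebraMap R K c + z⁻¹ - algebraMap R K c = z⁻¹ := by ring
  have h2 := mob_aeval (θ := algebraMap R K c + z⁻¹) c hf (by rw [h1]; exact inv_ne_zero hz)
  rw [h1, inv_inv, h0, zero_mul] at h2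
  exact h2.symm

section domain

variable [IsDomain R]

/-- the reverse of an irreducible polynomial with a constant term is irreducible -/
theorem irr_reverse {p : R[X]} (hp : Irreducible p) (h0 : p.coeff 0 ≠ 0) : Irreducible p.reverse := by
  have hp0 : p ≠ 0 := hp.ne_zero
  have htr : p.natTrailingDegree = 0 := natTrailingDegree_eq_zero_of_constantCoeff_ne_zero h0
  have hrr : p.reverse.reverse = p := by
    have h1 : p.reverse.natDegree = p.natDegree := by
      rw [reverse_natDegree, htr, Nat.sub_zero]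
    unfold reverse at h1 ⊢
    rw [h1]
    exact reflect_reflect
  have hrc : p.reverse.coeff 0 ≠ 0 := by
    rw [coeff_zero_reverse]
    exact leadingCoeff_ne_zero.2 hp0
  -- a polynomial with a constant term whose reverse is a unit is a unit
  have hun : ∀ u : R[X], u.coeff 0 ≠ 0 → IsUnit u.reverse → IsUnit u := by
    intro u hu0 hu
    have h1 : u.natTrailingDegree = 0 := natTrailingDegree_eq_zero_of_constantCoeff_ne_zero hu0
    have h2 : u.reverse.natDegree = 0 := natDegree_eq_zero_of_isUnit hu
    rw [reverse_natDegree, h1, Nat.sub_zero] at h2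
    obtain ⟨r, hr⟩ : ∃ r, u = C r := ⟨_, eq_C_of_natDegree_eq_zero h2⟩
    rw [hr] at hu ⊢
    rwa [reverse_C] at hu
  constructor
  · intro h
    exact hp.not_isUnit (hun p h0 h)
  · intro a b hab
    have h1 : a.coeff 0 * b.coeff 0 ≠ 0 := by
      rw [← mul_coeff_zero, ← hab]
      exact hrc
    have ha0 : a.coeff 0 ≠ 0 := left_ne_zero_of_mul h1
    have hb0 : b.coeff 0 ≠ 0 := right_ne_zero_of_mul h1
    have h2 : p = a.reverse * b.reverse := by
      rw [← reverse_mul_of_domain, ← hab, hrr]
    rcases hp.isUnit_or_isUnit h2 with h | h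
    · exact Or.inl (hun a ha0 h)
    · exact Or.inr (hun b hb0 h)

theorem mob_irr {n : ℕ} {c : R} {f : R[X]} (hf : f.natDegree = n) (hc : f.eval c ≠ 0)
    (hi : Irreducible f) : Irreducible (mob n c f) := by
  have h1 : Irreducible (taylor c f) := by
    have h := (MulEquiv.irreducible_iff (taylorEquiv c).toMulEquiv (x := f)).2 hi
    exact h
  have h2 : mob n c f = (taylor c f).reverse := by
    unfold mob reverse
    rw [natDegree_taylor, hf]
  rw [h2]
  exact irr_reverse h1 (by rwa [taylor_coeff_zero])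

end domain

/-- the transform of a squarefree polynomial of degree `n` or `n - 1` is squarefree -/
theorem mob_sqf {K : Type} [Field K] {n : ℕ} {c : K} {g : K[X]} (hg : g.natDegree ≤ n)
    (hg1 : n ≤ g.natDegree + 1) (hc : g.eval c ≠ 0) (hs : Squarefree g) :
    Squarefree (mob n c g) := by
  have hg0 : g ≠ 0 := by
    rintro rfl
    simp at hc
  have hts : Squarefree (taylor c g) := by
    intro u hu
    have h1 := map_dvd (taylorEquiv c).symm hu
    have h2 : (taylorEquiv c).symm (taylor c g) = g := (taylorEquiv c).symm_apply_apply g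
    rw [h2, map_mul] at h1
    have h3 := hs _ h1
    have h4 := h3.map (taylorEquiv c)
    rwa [AlgEquiv.apply_symm_apply] at h4
  have hdeg : (taylor c g).natDegree = g.natDegree := natDegree_taylor g c
  have hm : mob n c g ≠ 0 := by
    intro h
    have h1 := mob_lead n c g
    rw [h, coeff_zero] at h1
    exact hc h1.symm
  have hmd : (mob n c g).natDegree = n := mob_natDegree hg hc
  rintro v ⟨w, hw⟩
  have hv : v ≠ 0 := by
    rintro rfl
    apply hm
    rw [hw, zero_mul, zero_mul]
  have hwn : w ≠ 0 := by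
    rintro rfl
    apply hm
    rw [hw, mul_zero]
  have hdn : n = (v.natDegree + v.natDegree) + w.natDegree := by
    rw [← hmd, hw, natDegree_mul (mul_ne_zero hv hv) hwn, natDegree_mul hv hv]
  have h1 : taylor c g = v.reverse * v.reverse * w.reverse := by
    have h2 : reflect n (mob n c g) = taylor c g := by
      unfold mob
      exact reflect_reflect
    rw [← h2, hw]
    conv_lhs => rw [hdn]
    rw [reflect_mul (v * v) w (by rw [natDegree_mul hv hv]) le_rfl, reflect_mul v v le_rfl le_rfl]
    rfl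
  have h3 : IsUnit v.reverse := hts _ (Dvd.intro _ h1.symm)
  have h4 : v.reverse.natDegree = 0 := natDegree_eq_zero_of_isUnit h3
  rw [reverse_natDegree] at h4
  have h5 : v.natTrailingDegree = v.natDegree :=
    le_antisymm (natTrailingDegree_le_natDegree v) (by omega)
  by_contra hnu
  have hv1 : 1 ≤ v.natDegree := by
    by_contra h
    have h6 : v.natDegree = 0 := by omega
    apply hnu
    rw [eq_C_of_natDegree_eq_zero h6] at hv ⊢
    exact isUnit_C.2 (isUnit_iff_ne_zero.2 (by
      intro h7
      apply hv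
      rw [h7, C_0]))
  have hX : X ∣ v := by
    rw [X_dvd_iff]
    exact coeff_eq_zero_of_lt_natTrailingDegree (by omega)
  have hX2 : X ^ 2 ∣ mob n c g := by
    rw [hw, pow_two]
    exact Dvd.dvd.mul_right (mul_dvd_mul hX hX) w
  rw [X_pow_dvd_iff] at hX2
  have h6 : (taylor c g).coeff n = 0 := by
    have := hX2 0 (by norm_num)
    rwa [mob_coeff n c g (Nat.zero_le n), Nat.sub_zero] at this
  have hn1 : 1 ≤ n := by omega
  have h7 : (taylor c g).coeff (n - 1) = 0 := by
    have := hX2 1 (by norm_num)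
    rwa [mob_coeff n c g hn1] at this
  have h8 : (taylor c g).coeff (taylor c g).natDegree ≠ 0 := by
    rw [coeff_natDegree]
    exact leadingCoeff_ne_zero.2 (hts.ne_zero)
  rw [hdeg] at h8
  have h9 : g.natDegree = n ∨ g.natDegree = n - 1 := by omega
  rcases h9 with h9 | h9
  · rw [h9] at h8
    exact h8 h6
  · rw [h9] at h8
    exact h8 h7

end Pool.Agent.H87.TW
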