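import Pool.Agent.H97.FB.Defs2
import Pool.Agent.H97.GA.Defs
import Pool.Agent.H37.TU.CNT

/-!
# THEOREM U (MP_821da1_nt): the twisted curve (helper87) -- definitions

`UnR n B f`: `f ∈ ℤ[x][Z]` monic of degree `n` in `Z`, total degree at most `n`, unramified at `x = ∞`, the
branches at infinity are power series in `t = q T`; the constant terms are different.
`th Q a u = a x_u(1/(q a))`: the roots of `f(a, Z)`.
`Zt W x τ = ∑_u W (τ u) x_u`: the twisted series.
`sL e q`: the Laurent series `t = (q T)^e`; `phL e q : ℤ[x] → ℂ((T))`, `x ↦ 1/t`; `iL : ℂ[[T]] → ℂ((T))`.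
`arr g`: the array of the coefficients of `g ∈ ℤ[x][y]`.
-/

namespace Pool.Agent.H87.TW

open Finset Polynomial Pool.Agent.H72.ES Pool.Agent.H87.SA2 Pool.Agent.H8.AW Pool.Agent.H52.AC
  Pool.Agent.H97.NW Pool.Agent.H97.FB Pool.Agent.H97.GA

/-- a pencil in normal form, unramified at infinity, all constants at most `B` -/
structure UnR (n B : ℕ) (f : ℤ[X][X]) where
  n2 : 2 ≤ n
  B2 : 2 ≤ B
  monic : f.Monic
  deg : f.natDegree = n
  cdeg : ∀ i, (f.coeff i).natDegree ≤ n - i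
  le : ∀ i j, |(f.coeff i).coeff j| ≤ (B : ℤ)
  pd : PData (rv n 1 f) n
  e1 : pd.e = 1
  q_le : pd.q ≤ B
  R_le : pd.R ≤ B
  inj0 : Function.Injective fun u => PowerSeries.coeff 0 (pd.x u)

/-- the roots of `f(a, Z)` -/
noncomputable def UnR.th {n B : ℕ} {f : ℤ[X][X]} (Q : UnR n B f) (a : ℕ) (u : Fin n) : ℂ :=
  (a : ℂ) * evz (1 / ((Q.pd.q : ℂ) * a)) (Q.pd.x u)

/-- the twisted series -/
noncomputable def Zt {n : ℕ} (W : Fin n → ℂ) (x : Fin n → PowerSeries ℂ)
    (τ : Equiv.Perm (Fin n)) : PowerSeries ℂ := ∑ u, PowerSeries.C (W (τ u)) * x u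

/-- power series as Laurent series -/
noncomputable def iL : PowerSeries ℂ →+* LaurentSeries ℂ := HahnSeries.ofPowerSeries ℤ ℂ

/-- `t = (q T)^e` -/
noncomputable def sL (e q : ℕ) : LaurentSeries ℂ :=
  iL ((PowerSeries.C (q : ℂ) * PowerSeries.X) ^ e)

/-- `x ↦ 1 / t` -/
noncomputable def phL (e q : ℕ) : ℤ[X] →+* LaurentSeries ℂ :=
  eval₂RingHom (Int.castRingHom (LaurentSeries ℂ)) (sL e q)⁻¹

/-- the array of the coefficients -/
noncomputable def arr (g : ℤ[X][X]) (i j : ℕ) : ℤ := (g.coeff j).coeff i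

end Pool.Agent.H87.TW
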