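import Pool.Agent.H87.TW.Defs
import Pool.Agent.H34.AC.RedR

/-! # [H87 TW HGT] The height of the twisted curve

For `P ∈ ℂ⟦T⟧[X]` say `P ≤ M` if `‖coeff k (P.coeff j)‖ ≤ M (2ρ)^k` for all `j, k`. `1 ≤ 1`. If `P ≤ M` and `‖coeff k Z‖ ≤ U ρ^k`, `1 ≤ U`, then `(X - C Z) * P ≤ 4 U M`: the coefficient of `T^k` of `Z * P.coeff j` is at most
`∑_(i ≤ k) U ρ^i M (2ρ)^(k-i) = U M (2ρ)^k ∑ 2^(-i) ≤ 2 U M (2ρ)^k` (`PowerSeries.coeff_mul`, antidiagonal), and `coeff j (X * P) = P.coeff (j-1)`; `1 + 2U ≤ 4U`. By induction on `D` (`Fin.prod_univ_succ`; or over a finset) `∏_(i : Fin D) (X - C (Z i)) ≤ (4U)^D`.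
The coefficient of `X^j` of `(fI D F).map (tq 1 q)` is `∑_(i < D+1-j) F i j (C q * X)^(D-i-j)`, so its coefficient of `T^(D-i-j)` is `q^(D-i-j) F i j` (`fI_coeff` of `Pool/Agent/H34/AC/RedR.lean`; `tq 1 q p = ∑ p_l q^l T^l`), `1 ≤ q`. So `|F i j| ≤ (4U)^D (2ρ)^(D-i-j) ≤ (4U)^D (2ρ)^D`. -/

namespace Pool.Agent.H87.TW

open Finset Polynomial Pool.Agent.H87.SA2 Pool.Agent.H8.AW Pool.Agent.H52.AC

private theorem hgt_two (k : ℕ) : ∑ p ∈ antidiagonal k, (2 : ℝ) ^ p.2 ≤ 2 ^ (k + 1) := by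
  induction k with
  | zero => simp
  | succ k ih =>
    rw [Finset.Nat.sum_antidiagonal_succ]
    have h : (2 : ℝ) ^ (k + 1 + 1) = 2 ^ (k + 1) + 2 ^ (k + 1) := by ring
    rw [h]
    exact add_le_add le_rfl ih

private theorem hgt_mul {U ρ M : ℝ} (hU : 1 ≤ U) (hρ : 1 ≤ ρ) (hM : 0 ≤ M) {Z : PowerSeries ℂ}
    (hZ : ∀ k, ‖PowerSeries.coeff k Z‖ ≤ U * ρ ^ k) {P : (PowerSeries ℂ)[X]}
    (hP : ∀ j k, ‖PowerSeries.coeff k (P.coeff j)‖ ≤ M * (2 * ρ) ^ k) (j k : ℕ) :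
    ‖PowerSeries.coeff k (((X - C Z) * P).coeff j)‖ ≤ 4 * U * M * (2 * ρ) ^ k := by
  have h1 : ‖PowerSeries.coeff k (Z * P.coeff j)‖ ≤ 2 * U * M * (2 * ρ) ^ k := by
    rw [PowerSeries.coeff_mul]
    refine (norm_sum_le _ _).trans ?_
    have h2 : ∀ p ∈ antidiagonal k, ‖PowerSeries.coeff p.1 Z * PowerSeries.coeff p.2 (P.coeff j)‖ ≤
        U * M * ρ ^ k * 2 ^ p.2 := by
      intro p hp
      rw [norm_mul]
      have h3 := mul_le_mul (hZ p.1) (hP j p.2) (norm_nonneg _) (by positivity)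
      refine h3.trans (le_of_eq ?_)
      rw [← mem_antidiagonal.1 hp, mul_pow, pow_add]
      ring
    refine (sum_le_sum h2).trans ?_
    rw [← mul_sum]
    calc U * M * ρ ^ k * ∑ p ∈ antidiagonal k, (2 : ℝ) ^ p.2 ≤ U * M * ρ ^ k * 2 ^ (k + 1) := by
          have := hgt_two k
          gcongr
      _ = 2 * U * M * (2 * ρ) ^ k := by
          rw [mul_pow, pow_succ]
          ring
  have h2 : ‖PowerSeries.coeff k ((X * P).coeff j)‖ ≤ M * (2 * ρ) ^ k := by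
    rcases j with _ | j
    · rw [coeff_X_mul_zero, map_zero, norm_zero]
      positivity
    · rw [coeff_X_mul]
      exact hP j k
  rw [sub_mul, coeff_sub, coeff_C_mul, map_sub]
  refine (norm_sub_le _ _).trans ((add_le_add h2 h1).trans ?_)
  have h3 : 0 ≤ M * (2 * ρ) ^ k := by positivity
  nlinarith

private theorem hgt_prod {D : ℕ} (Z : Fin D → PowerSeries ℂ) {U ρ : ℝ} (hU : 1 ≤ U)
    (hρ : 1 ≤ ρ) (hZ : ∀ j k, ‖PowerSeries.coeff k (Z j)‖ ≤ U * ρ ^ k) (s : Finset (Fin D)) :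
    ∀ j k, ‖PowerSeries.coeff k ((∏ i ∈ s, (X - C (Z i))).coeff j)‖ ≤
      (4 * U) ^ s.card * (2 * ρ) ^ k := by
  classical
  induction s using Finset.induction_on with
  | empty =>
    intro j k
    have h1 : (1 : ℝ) ≤ (2 * ρ) ^ k := one_le_pow₀ (by linarith)
    rw [prod_empty, card_empty, pow_zero, one_mul, coeff_one]
    split_ifs with h
    · rw [PowerSeries.coeff_one]
      split_ifs
      · rw [norm_one]
        exact h1
      · rw [norm_zero]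
        linarith
    · rw [map_zero, norm_zero]
      linarith
  | insert a s ha ih =>
    intro j k
    rw [prod_insert ha, card_insert_of_notMem ha]
    refine (hgt_mul hU hρ (by positivity) (hZ a) ih j k).trans (le_of_eq ?_)
    rw [pow_succ]
    ring

private theorem hgt_coeff (q : ℕ) (p : ℤ[X]) (l : ℕ) :
    PowerSeries.coeff l (tq 1 q p) = (p.coeff l : ℂ) * (q : ℂ) ^ l := by
  induction p using Polynomial.induction_on' with
  | add p r hp hr =>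
    rw [map_add, map_add, hp, hr, coeff_add]
    push_cast
    ring
  | monomial n a =>
    unfold tq
    rw [coe_eval₂RingHom, eval₂_monomial, pow_one, mul_pow, coeff_monomial]
    have h1 : (Int.castRingHom (PowerSeries ℂ)) a = PowerSeries.C (a : ℂ) := by simp
    rw [h1, ← map_pow, ← mul_assoc, ← map_mul, PowerSeries.coeff_C_mul, PowerSeries.coeff_X_pow]
    by_cases h : l = n
    · subst h
      simp
    · rw [if_neg h, if_neg (fun h' => h h'.symm)]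
      simp

theorem arr_le {q D : ℕ} (hq : 1 ≤ q) (Z : Fin D → PowerSeries ℂ) {U ρ : ℝ} (hU : 1 ≤ U)
    (hρ : 1 ≤ ρ) (hZ : ∀ j k, ‖PowerSeries.coeff k (Z j)‖ ≤ U * ρ ^ k) (F : ℕ → ℕ → ℤ)
    (hs : (fI D F).map (tq 1 q) = ∏ j, (X - C (Z j))) (i j : ℕ) (hij : i + j ≤ D) :
    |(F i j : ℝ)| ≤ (4 * U) ^ D * (2 * ρ) ^ D := by
  have h1 := hgt_prod Z hU hρ hZ univ j (D - i - j)
  rw [← hs, coeff_map, hgt_coeff, Pool.Agent.H34.AC.fI_coeff, if_pos (by omega), if_pos (by omega),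
    card_univ, Fintype.card_fin, norm_mul, norm_pow, Complex.norm_natCast, Complex.norm_intCast] at h1
  have h2 : D - j - (D - i - j) = i := by omega
  rw [h2] at h1
  have hq1 : (1 : ℝ) ≤ (q : ℝ) ^ (D - i - j) := one_le_pow₀ (by exact_mod_cast hq)
  calc |(F i j : ℝ)| ≤ |(F i j : ℝ)| * (q : ℝ) ^ (D - i - j) :=
        le_mul_of_one_le_right (abs_nonneg _) hq1
    _ ≤ (4 * U) ^ D * (2 * ρ) ^ (D - i - j) := h1
    _ ≤ (4 * U) ^ D * (2 * ρ) ^ D := by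
        have h3 : (2 * ρ) ^ (D - i - j) ≤ (2 * ρ) ^ D :=
          pow_le_pow_right₀ (by linarith) (by omega)
        gcongr

end Pool.Agent.H87.TW
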