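import Mathlib

/-! # [H87 TW SYM] Symmetric polynomials of the roots (Mathlib only)

Let `φ : A → S`, `p ∈ A[X]` with `p.map φ = ∏_u (X - x_u)`, `F ∈ A[X_1, ..., X_n]` symmetric. Then `F(x) ∈ φ(A)`.
PROOF. `e_i(x) = φ((-1)^i p.coeff (n - i))` for `i ≤ n`: compare the coefficients of `X^(n-i)` in `p.map φ = ∏ (X - C (x u))`
(`Multiset.prod_X_sub_C_coeff` with `s = univ.val.map x`, `card s = n`, and `MvPolynomial.aeval_esymm_eq_multiset_esymm` / `Finset.esymm_map_val`).
By the fundamental theorem (`MvPolynomial.esymmAlgEquiv` with `Fintype.card (Fin n) = n`, or `MvPolynomial.esymmAlgHom_fin_surjective` /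
`esymmAlgHom_surjective`: every symmetric `F` is `aeval (fun i : Fin n => esymm (Fin n) A (i + 1)) G` for a `G : MvPolynomial (Fin n) A`;
`MvPolynomial.symmetricSubalgebra`, `mem_symmetricSubalgebra`) and `eval₂ φ x F = eval₂ φ (fun i => eval₂ φ x (esymm (i+1))) G =
eval₂ φ (fun i => φ (c i)) G = φ (eval c G)` (`MvPolynomial.eval₂_comp_left`, `MvPolynomial.hom_eval₂`; view `eval₂ φ x` as the ring hom
`MvPolynomial.eval₂Hom φ x`), `c i = (-1)^(i+1) p.coeff (n - (i+1))`. -/

namespace Pool.Agent.H87.TW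

open Finset Polynomial

theorem sym_root {A S : Type} [CommRing A] [CommRing S] (φ : A →+* S) {n : ℕ} (x : Fin n → S)
    (p : A[X]) (hs : p.map φ = ∏ u, (X - C (x u))) (F : MvPolynomial (Fin n) A)
    (hF : F.IsSymmetric) : ∃ a : A, MvPolynomial.eval₂ φ x F = φ a := by
  letI : Algebra A S := φ.toAlgebra
  obtain ⟨G, hG⟩ := MvPolynomial.esymmAlgHom_surjective (σ := Fin n) (R := A) (n := n)
    (by simp) ⟨F, hF⟩
  have hF' : MvPolynomial.aeval (fun i : Fin n => MvPolynomial.esymm (Fin n) A (i + 1)) G = F := by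
    rw [← MvPolynomial.esymmAlgHom_apply, hG]
  have he : ∀ i : Fin n, MvPolynomial.aeval x (MvPolynomial.esymm (Fin n) A (i + 1)) =
      algebraMap A S ((-1) ^ ((i : ℕ) + 1) * p.coeff (n - ((i : ℕ) + 1))) := by
    intro i
    have hi : (i : ℕ) + 1 ≤ n := i.isLt
    rw [MvPolynomial.aeval_esymm_eq_multiset_esymm]
    have hcard : Multiset.card ((univ : Finset (Fin n)).val.map x) = n := by simp
    have h1 := Multiset.prod_X_sub_C_coeff ((univ : Finset (Fin n)).val.map x)
      (k := n - ((i : ℕ) + 1)) (by rw [hcard]; omega)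
    have h2 : (((univ : Finset (Fin n)).val.map x).map fun t => X - C t).prod = p.map φ := by
      rw [hs, Multiset.map_map]
      rfl
    have h3 : n - (n - ((i : ℕ) + 1)) = (i : ℕ) + 1 := by omega
    rw [h2, hcard, h3, coeff_map] at h1
    have h4 : algebraMap A S = φ := rfl
    rw [h4, map_mul, map_pow, map_neg, map_one, h1, ← mul_assoc, ← pow_add,
      ← two_mul, pow_mul, neg_one_sq, one_pow, one_mul]
  refine ⟨MvPolynomial.aeval (fun i : Fin n => (-1) ^ ((i : ℕ) + 1) *
    p.coeff (n - ((i : ℕ) + 1))) G, ?_⟩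
  have h1 : MvPolynomial.eval₂ φ x F = MvPolynomial.aeval x F := rfl
  rw [h1, ← hF', MvPolynomial.comp_aeval_apply]
  have h2 : (fun i : Fin n => MvPolynomial.aeval x (MvPolynomial.esymm (Fin n) A (i + 1))) =
      (algebraMap A S) ∘ (fun i : Fin n => (-1) ^ ((i : ℕ) + 1) *
        p.coeff (n - ((i : ℕ) + 1))) := by
    funext i
    exact he i
  rw [h2, MvPolynomial.aeval_algebraMap_apply]
  rfl

end Pool.Agent.H87.TW
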