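import Pool.Agent.H87.TW.Defs

/-! # [H87 TW TAU] The permutations of the branches

`tau = j`. Lift `θ u`, `gam u` to elements of `AA`. Galois: `Prm θ σ ν`, `Prm gam σ π` (`Cj σ z w`: `σ a = w` for the `a : AA` with `(a : ℂ) = z`). With `k = 0`: the constant term of the branch `i'` is `σ` of that of `i`: `a = ∑_u wv n lam (θ (j i u)) * gam u` as an element of `AA` (`wv` over `AA`, `map_wv`; the coercion is a ring homomorphism), so
`∑_u wv n lam (θ (j i' u)) gam u = σ a = ∑_u wv n lam (θ (ν (j i u))) gam (π u) = ∑_u wv n lam (θ (ν (j i (π⁻¹ u)))) gam u` (`map_sum`, `map_wv`, `Equiv.sum_comp`), and `hinj` gives `j i' = ν * j i * π⁻¹`.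
Rotation: `rescale ζ` does not change the constant term (`PowerSeries.coeff_rescale`, `ζ^0 = 1`), so `j i' = j i` by `hinj`. -/

namespace Pool.Agent.H87.TW

open Finset Polynomial Pool.Agent.H72.ES Pool.Agent.H87.SA2 Pool.Agent.H8.AW Pool.Agent.H52.AC
  Pool.Agent.H97.NW Pool.Agent.H97.GA Pool.Agent.H37.TU

theorem tau_of {n ν : ℕ} (P : Ptd ν) (θ gam : Fin n → ℂ) (hθ : ∀ u, θ u ∈ AA)
    (hgam : ∀ u, gam u ∈ AA) (lam : ℕ) (j : Fin P.d → Equiv.Perm (Fin n)) (h1 : j P.i = 1)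
    (hinj : Function.Injective fun τ : Equiv.Perm (Fin n) => ∑ u, wv n lam (θ (τ u)) * gam u)
    (hc : ∀ i, PowerSeries.coeff 0 (P.C.pd.x i) = ∑ u, wv n lam (θ (j i u)) * gam u) :
    TauA θ gam P := by
  obtain ⟨θ', hθ'⟩ : ∃ θ' : Fin n → AA, ∀ u, ((θ' u : AA) : ℂ) = θ u := ⟨fun u => ⟨θ u, hθ u⟩, fun _ => rfl⟩
  obtain ⟨gam', hgam'⟩ : ∃ gam' : Fin n → AA, ∀ u, ((gam' u : AA) : ℂ) = gam u :=
    ⟨fun u => ⟨gam u, hgam u⟩, fun _ => rfl⟩
  have hco : ∀ τ : Equiv.Perm (Fin n), (((∑ u, wv n lam (θ' (τ u)) * gam' u : AA)) : ℂ) =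
      ∑ u, wv n lam (θ (τ u)) * gam u := by
    intro τ
    have h2 : algebraMap AA ℂ (∑ u, wv n lam (θ' (τ u)) * gam' u) =
        ∑ u, wv n lam (θ (τ u)) * gam u := by
      rw [map_sum]
      refine sum_congr rfl fun u _ => ?_
      rw [map_mul, map_wv]
      congr 1
      · congr 1
        exact hθ' _
      · exact hgam' u
    exact h2
  refine ⟨j, h1, ?_, ?_⟩
  · intro σ ν' π hν hπ i i' hk
    have h2 := hk 0 (∑ u, wv n lam (θ' (j i u)) * gam' u) (by rw [hco, hc])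
    rw [map_sum, hc i'] at h2
    have h3 : ∀ u, σ (wv n lam (θ' (j i u)) * gam' u) =
        wv n lam (θ (ν' (j i u))) * gam (π u) := by
      intro u
      rw [map_mul, map_wv]
      congr 1
      · congr 1
        exact hν (j i u) (θ' (j i u)) (hθ' _)
      · exact hπ u (gam' u) (hgam' u)
    rw [sum_congr rfl fun u _ => h3 u] at h2
    apply hinj
    show ∑ u, wv n lam (θ (j i' u)) * gam u =
      ∑ u, wv n lam (θ ((ν' * j i * π⁻¹) u)) * gam u
    rw [← h2, ← Equiv.sum_comp π (fun u => wv n lam (θ ((ν' * j i * π⁻¹) u)) * gam u)]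
    refine sum_congr rfl fun u _ => ?_
    simp
  · intro ζ hζ i i' hr
    apply hinj
    show ∑ u, wv n lam (θ (j i' u)) * gam u = ∑ u, wv n lam (θ (j i u)) * gam u
    rw [← hc, ← hc, ← hr, PowerSeries.coeff_rescale, pow_zero, one_mul]

end Pool.Agent.H87.TW
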