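import Pool.Agent.H98.MR.Defs
import Pool.Agent.H87.TW.ALG
import Pool.Agent.H87.TW.CRB
import Pool.Agent.H87.TW.SPR
import Pool.Agent.H87.TW.LAM
import Pool.Agent.H87.TW.TAU

/-! # [H87 TW TWF] The twisted curve (assembly)

`Λ` from `exists_lam n`; `lam ≤ Λ` for `θ = Q.th a` (injective by `Rts`), `gam = coeff 0 (Q.pd.x u)` (`Q.inj0`). `exists_alg`: `D, F, j, k0`. `y` from `tw_int`.
NUMBERS. `w_u = wv n lam (Q.th a u)`: `‖w_u‖ ≤ n (Λ+1)^n a^(K0 n) ≤ a^(K0 n + 1)` for `a ≥ n (Λ+1)^n` (`a ≥ 1`). `ρ = B`: `‖coeff k (x u)‖ ≤ R^(k+1) ≤ B^(k+1)`. `zt_growth`: `‖coeff k (Zt ..)‖ ≤ n a^(K0 n + 1) B B^k ≤ a^(K0 n + 3) B^k` (`n, B ≤ a`), and `≤ A A^k` for `A = a^(K0 n + 3)` (`B ≤ a ≤ A`). `exists_crvB (n!)`: `b = A^K = a^((K0 n + 3) K)`. `κ = (K0 n + 3) K`, `K` that of `exists_crvB`.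
`1 ≤ D` (`k0`). `Z = fun k => Zt w Q.pd.x (j k)` injective: constant terms (`zt_coeff`, `hinj`, `j` injective). `zt_int` (`w_u` integral: `θ` integral as root of the monic `fa f a`; `pd.integral`).
THE POINT: `T = 1 / (q a)`, `x = a`, `i = k0`: `hT`: `(q T)^1 a = 1`. `hy`: `zt_ev` (`R ‖T‖ ≤ B / a < 1`): `evz T (Zt w x τ) = ∑ w (τ u) evz T (x u) = (∑_u w (τ u) th_u) / a`, `= y / a` for `τ = 1`. For `τ ≠ 1` it is different (second part of `exists_lam`). `evy_rlx` (`U = a^(K0 n + 3)`, `ρ = B`) gives `zero` and `evy ≠ 0`.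
`Rlx κ c`: `ρ = B`, `B^c ≤ a` (`C ≥ c`), `q ≤ B`, the growth, `b ≤ a^κ`, `evy`. `TauA`: `tau_of` (`Cv.pd.x = Z`, `zt_coeff`).
`exists_twF`: `unr_of_fam`, `thA_rts`, `thA_norm` (`Pool/Agent/H97/FC/THB.lean`), `exists_tw`. -/

namespace Pool.Agent.H87.TW

open Finset Polynomial Pool.Agent.H72.ES Pool.Agent.H87.SA2 Pool.Agent.H8.AW Pool.Agent.H52.AC
  Pool.Agent.H97.NW Pool.Agent.H97.FB Pool.Agent.H97.GA Pool.Agent.H37.TU Pool.Agent.H98.MR

private theorem twf_int {n : ℕ} {f : ℤ[X][X]} (hm : f.Monic) {a : ℕ} {θ : Fin n → ℂ}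
    (h : Rts (fa f a) θ) (u : Fin n) : IsIntegral ℤ (θ u) := by
  refine ⟨fa f a, hm.map _, ?_⟩
  have h1 : ((fa f a).map (Int.castRingHom ℂ)).eval (θ u) = 0 := by
    rw [h.1, eval_prod]
    exact prod_eq_zero (mem_univ u) (by simp)
  rw [eval_map] at h1
  exact h1

private theorem twf_wv {n lam Λ a K0 : ℕ} (hlam : lam ≤ Λ) (ha : 1 ≤ a) (hb : n * (Λ + 1) ^ n ≤ a)
    {θ : ℂ} (hθ : ‖θ‖ ≤ (a : ℝ) ^ K0) : ‖wv n lam θ‖ ≤ (a : ℝ) ^ (K0 * n + 1) := by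
  unfold wv
  have ha1 : (1 : ℝ) ≤ a := by exact_mod_cast ha
  have h1 : ∀ l ∈ range n, ‖(lam : ℂ) ^ l * θ ^ l‖ ≤ ((Λ : ℝ) + 1) ^ n * (a : ℝ) ^ (K0 * n) := by
    intro l hl
    have hl' : l ≤ n := (mem_range.1 hl).le
    rw [norm_mul, norm_pow, norm_pow, Complex.norm_natCast]
    refine mul_le_mul ?_ ?_ (by positivity) (by positivity)
    · have h2 : (lam : ℝ) ≤ (Λ : ℝ) + 1 := by
        have : (lam : ℝ) ≤ Λ := by exact_mod_cast hlam
        linarith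
      refine (pow_le_pow_left₀ (by positivity) h2 l).trans ?_
      exact pow_le_pow_right₀ (by have : (0 : ℝ) ≤ Λ := by positivity
                                  linarith) hl'
    · refine (pow_le_pow_left₀ (norm_nonneg _) hθ l).trans ?_
      rw [← pow_mul]
      exact pow_le_pow_right₀ ha1 (Nat.mul_le_mul_left _ hl')
  refine (norm_sum_le _ _).trans ((sum_le_sum h1).trans ?_)
  rw [sum_const, card_range, nsmul_eq_mul]
  have h3 : (n : ℝ) * ((Λ : ℝ) + 1) ^ n ≤ a := by exact_mod_cast hb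
  calc (n : ℝ) * (((Λ : ℝ) + 1) ^ n * (a : ℝ) ^ (K0 * n)) =
        ((n : ℝ) * ((Λ : ℝ) + 1) ^ n) * (a : ℝ) ^ (K0 * n) := by ring
    _ ≤ a * (a : ℝ) ^ (K0 * n) := mul_le_mul_of_nonneg_right h3 (by positivity)
    _ = (a : ℝ) ^ (K0 * n + 1) := by rw [pow_succ]; ring

theorem exists_tw (n K0 : ℕ) (hn : 2 ≤ n) : ∃ κ : ℕ, 1 ≤ κ ∧ ∀ c : ℕ, ∃ C : ℕ, ∀ (B : ℕ) (f : ℤ[X][X])
    (Q : UnR n B f) (a : ℕ), B ^ C ≤ a → Rts (fa f a) (Q.th a) →
    (∀ u, ‖Q.th a u‖ ≤ (a : ℝ) ^ K0) → ∀ ν : ℕ, n.factorial ≤ ν →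
    ∃ P : Ptd ν, P.x = (a : ℤ) ∧ Rlx κ c P ∧
      TauA (Q.th a) (fun u => PowerSeries.coeff 0 (Q.pd.x u)) P := by
  obtain ⟨Λ, hΛ⟩ := exists_lam n
  obtain ⟨K, hK1, hK⟩ := exists_crvB n.factorial
  refine ⟨(K0 * n + 3) * K, Nat.mul_pos (by omega) hK1, fun c => ?_⟩
  refine ⟨n * (Λ + 1) ^ n + n + c + 2, ?_⟩
  intro B f Q a haC hR hth ν hν
  have hB2 : 2 ≤ B := Q.B2
  have hpow : ∀ m : ℕ, m ≤ n * (Λ + 1) ^ n + n + c + 2 → B ^ m ≤ a := fun m hm =>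
    (Nat.pow_le_pow_right (by omega) hm).trans haC
  have hlt : ∀ m : ℕ, m ≤ n * (Λ + 1) ^ n + n + c + 2 → m < a := fun m hm =>
    (Nat.lt_pow_self (by omega : 1 < B)).trans_le (hpow m hm)
  have ha1 : 1 ≤ a := hlt 0 (by omega)
  have hab : n * (Λ + 1) ^ n ≤ a := (hlt _ (by omega)).le
  have han : n ≤ a := (hlt _ (by omega)).le
  have hBa2 : B ^ 2 ≤ a := hpow 2 (by omega)
  have hBa : B < a := by nlinarith
  have haR1 : (1 : ℝ) ≤ a := by exact_mod_cast ha1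
  have haR0 : (0 : ℝ) < a := by linarith
  have hBR2 : (2 : ℝ) ≤ B := by exact_mod_cast hB2
  have hBaR : (B : ℝ) < a := by exact_mod_cast hBa
  have hnaR : (n : ℝ) ≤ a := by exact_mod_cast han
  have hq1 : 1 ≤ Q.pd.q := Q.pd.q_pos
  have hqR1 : (1 : ℝ) ≤ Q.pd.q := by exact_mod_cast hq1
  -- the weight
  obtain ⟨lam, hlam, hinj, hsec⟩ := hΛ (Q.th a) (fun u => PowerSeries.coeff 0 (Q.pd.x u)) hR.2
    Q.inj0
  obtain ⟨D, F, j, k0, hDn, hF1, hF2, hFirr, hjinj, hj0, hsplit⟩ := exists_alg Q a lam hR hinj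
  obtain ⟨y, hy⟩ := tw_int (fa f a) (Q.th a) hR.1 lam
  set W : Fin n → ℂ := fun u => wv n lam (Q.th a u) with hW
  set Z : Fin D → PowerSeries ℂ := fun k => Zt W Q.pd.x (j k) with hZ
  set A : ℕ := a ^ (K0 * n + 3) with hA
  have hAR : (A : ℝ) = (a : ℝ) ^ (K0 * n + 3) := by rw [hA]; push_cast; rfl
  have haA : a ≤ A := by
    rw [hA]
    exact Nat.le_self_pow (by omega) a
  have hD1 : 1 ≤ D := by
    have := k0.2
    omega
  have hWn : ∀ u, ‖W u‖ ≤ (a : ℝ) ^ (K0 * n + 1) := fun u => twf_wv hlam ha1 hab (hth u)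
  have hRB : ∀ u k, ‖PowerSeries.coeff k (Q.pd.x u)‖ ≤ (B : ℝ) ^ (k + 1) := fun u k =>
    (Q.pd.growth u k).trans (pow_le_pow_left₀ (by linarith [Q.pd.R_ge]) Q.R_le _)
  have hgr : ∀ i k, ‖PowerSeries.coeff k (Z i)‖ ≤ (A : ℝ) * (B : ℝ) ^ k := by
    intro i k
    refine (zt_growth W Q.pd.x (by positivity) (by positivity) hWn hRB (j i) k).trans ?_
    refine mul_le_mul_of_nonneg_right ?_ (by positivity)
    rw [hAR]
    calc (n : ℝ) * (a : ℝ) ^ (K0 * n + 1) * B ≤ a * (a : ℝ) ^ (K0 * n + 1) * a := by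
          refine mul_le_mul ?_ hBaR.le (by positivity) (by positivity)
          exact mul_le_mul_of_nonneg_right hnaR (by positivity)
      _ = (a : ℝ) ^ (K0 * n + 3) := by ring
  have hBA : (B : ℝ) ≤ A := hBaR.le.trans (by exact_mod_cast haA)
  have hZinj : Function.Injective Z := by
    intro k k' hkk
    apply hjinj
    apply hinj
    have h1 : PowerSeries.coeff 0 (Z k) = PowerSeries.coeff 0 (Z k') := by rw [hkk]
    rw [hZ] at h1
    simp only [zt_coeff] at h1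
    exact h1
  have hWint : ∀ u, IsIntegral ℤ (W u) := by
    intro u
    rw [hW]
    unfold wv
    refine IsIntegral.sum _ fun l _ => ?_
    refine IsIntegral.mul (IsIntegral.pow ?_ l) (IsIntegral.pow (twf_int Q.monic hR u) l)
    exact_mod_cast (isIntegral_algebraMap (R := ℤ) (A := ℂ) (x := (lam : ℤ)))
  obtain ⟨Cv, hCe, hCq, hCx⟩ := hK ν D A Q.pd.q F Z hDn (hDn.trans hν) hD1
    ((by omega : 2 ≤ a).trans haA) hq1 (Q.q_le.trans (hBa.le.trans haA)) hF1 hF2 hFirr hZinj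
    (fun i k => zt_int W Q.pd.x hWint Q.pd.integral (j i) k)
    (fun i k => (hgr i k).trans (mul_le_mul_of_nonneg_left
      (pow_le_pow_left₀ (by positivity) hBA k) (by positivity))) hsplit
  -- the point
  set T : ℂ := 1 / ((Q.pd.q : ℂ) * a) with hT
  have hq0 : (Q.pd.q : ℂ) ≠ 0 := by
    have : Q.pd.q ≠ 0 := by omega
    exact_mod_cast this
  have ha0 : (a : ℂ) ≠ 0 := by
    have : a ≠ 0 := by omega
    exact_mod_cast this
  have hTn : (B : ℝ) * ‖T‖ < 1 := by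
    rw [hT, norm_div, norm_one, norm_mul, Complex.norm_natCast, Complex.norm_natCast, mul_one_div,
      div_lt_one (by positivity)]
    nlinarith
  have hval : ∀ i : Fin D, evz T (Z i) =
      (∑ u, wv n lam (Q.th a (j i u)) * Q.th a u) / (a : ℂ) := by
    intro i
    rw [hZ]
    show evz T (Zt W Q.pd.x (j i)) = _
    rw [zt_ev W Q.pd.x (by positivity) hRB (j i) hTn, sum_div]
    refine sum_congr rfl fun u _ => ?_
    have h1 : Q.th a u = (a : ℂ) * evz T (Q.pd.x u) := rfl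
    rw [h1, hW]
    show wv n lam (Q.th a (j i u)) * evz T (Q.pd.x u) =
      wv n lam (Q.th a (j i u)) * (a * evz T (Q.pd.x u)) / a
    field_simp
  have hTx : ((Cv.pd.q : ℂ) * T) ^ Cv.pd.e * ((a : ℤ) : ℂ) = 1 := by
    rw [hCe, hCq, hT, pow_one, Int.cast_natCast]
    field_simp
  have hyv : evz T (Cv.pd.x k0) = (y : ℂ) / ((a : ℤ) : ℂ) := by
    rw [hCx, hval k0, hj0, hy, Int.cast_natCast]
    rfl
  have huniq : ∀ i, evz T (Cv.pd.x i) = (y : ℂ) / ((a : ℤ) : ℂ) → i = k0 := by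
    intro i hi
    rw [hCx, hval i, hy, Int.cast_natCast] at hi
    have h1 : ∑ u, wv n lam (Q.th a (j i u)) * Q.th a u =
        ∑ u, wv n lam (Q.th a u) * Q.th a u := by
      have h2 := (div_left_inj' ha0).1 hi
      exact h2
    by_contra hne
    have h3 : j i ≠ 1 := by
      intro h4
      apply hne
      apply hjinj
      rw [h4, hj0]
    exact hsec (j i) h3 h1
  have hgC : ∀ i k, ‖PowerSeries.coeff k (Cv.pd.x i)‖ ≤ (A : ℝ) * (B : ℝ) ^ k := by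
    rw [hCx]
    exact hgr
  obtain ⟨hev, hevy⟩ := evy_rlx Cv.pd (by positivity) (by positivity) hgC hTn hTx hyv huniq
  let P : Ptd ν := ⟨D, A ^ K, F, Cv, k0, T, (a : ℤ), y, hev, hTx, hyv⟩
  have habs : |((P.x : ℤ) : ℝ)| = a := by
    show |(((a : ℤ) : ℤ) : ℝ)| = a
    rw [Int.cast_natCast, abs_of_nonneg (by positivity)]
  have hκ : (A : ℝ) ^ K = (a : ℝ) ^ ((K0 * n + 3) * K) := by
    rw [hAR, ← pow_mul]
  refine ⟨P, rfl, ⟨(B : ℝ), ?_⟩, ?_⟩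
  · refine ⟨hBR2, ?_, ?_, ?_, ?_, hevy⟩
    · rw [habs]
      exact_mod_cast hpow c (by omega)
    · show ((Cv.pd.q : ℕ) : ℝ) ≤ B
      rw [hCq]
      exact_mod_cast Q.q_le
    · intro i k
      rw [habs]
      refine (hgC i k).trans (mul_le_mul_of_nonneg_right ?_ (by positivity))
      rw [← hκ]
      have hA1 : (1 : ℝ) ≤ A := by
        have : 1 ≤ A := ha1.trans haA
        exact_mod_cast this
      exact le_self_pow₀ hA1 (by omega)
    · rw [habs]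
      show ((A ^ K : ℕ) : ℝ) ≤ _
      rw [Nat.cast_pow, hκ]
  · refine tau_of P (Q.th a) (fun u => PowerSeries.coeff 0 (Q.pd.x u))
      (fun u => mem_AA (twf_int Q.monic hR u)) (fun u => mem_AA (Q.pd.integral u 0)) lam j hj0
      hinj ?_
    intro i
    show PowerSeries.coeff 0 (Cv.pd.x i) = _
    rw [hCx, hZ]
    show PowerSeries.coeff 0 (Zt W Q.pd.x (j i)) = _
    rw [zt_coeff]

end Pool.Agent.H87.TW
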