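import Pool.Agent.H87.TW.TWF
import Pool.Agent.H87.TW.UNR
import Pool.Agent.H97.FC.THB

/-! # [H87 TW TWG] The twisted curve of a fibre of a pencil

`unr_of_fam` (`C1`), `thA_rts`, `thA_norm n 1` (`K0` the constant of `thA_norm`), `exists_tw n K0`, with `B^C1` instead of `B`: `C = C1 * C(exists_tw) + C1 + C(thA_rts) + K0`. -/

namespace Pool.Agent.H87.TW

open Finset Polynomial Pool.Agent.H72.ES Pool.Agent.H87.SA2 Pool.Agent.H8.AW Pool.Agent.H52.AC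
  Pool.Agent.H97.NW Pool.Agent.H97.FB Pool.Agent.H97.FC Pool.Agent.H37.TU Pool.Agent.H98.MR

theorem exists_twF (n : ℕ) (hn : 2 ≤ n) : ∃ κ : ℕ, 1 ≤ κ ∧ ∀ c : ℕ, ∃ C : ℕ, ∀ (B : ℕ) (f : ℤ[X][X])
    (Fm : FamB n 1 B f), (Function.Injective fun u => PowerSeries.coeff 0 (Fm.pd.x u)) →
    ∀ a : ℕ, B ^ C ≤ a → ∀ ν : ℕ, n.factorial ≤ ν →
    ∃ P : Ptd ν, P.x = (a : ℤ) ∧ Rlx κ c P ∧
      TauA (thA Fm.pd 1 a) (fun u => PowerSeries.coeff 0 (Fm.pd.x u)) P := by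
  obtain ⟨C1, hC1, h1⟩ := unr_of_fam n
  obtain ⟨C2, h2⟩ := thA_rts n 1
  obtain ⟨K0, h3⟩ := thA_norm n 1
  obtain ⟨κ, hκ, h4⟩ := exists_tw n K0 hn
  refine ⟨κ, hκ, fun c => ?_⟩
  obtain ⟨C3, h5⟩ := h4 c
  refine ⟨C1 * C3 + C1 + C2 + K0, fun B f Fm hinj a ha ν hν => ?_⟩
  have hB1 : 0 < B := by
    have := Fm.B2
    omega
  have hle : ∀ k, k ≤ C1 * C3 + C1 + C2 + K0 → B ^ k ≤ a :=
    fun k hk => (Nat.pow_le_pow_right hB1 hk).trans ha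
  obtain ⟨Q, hQ1, hQ2⟩ := h1 B f Fm hinj
  have hth : Q.th a = thA Fm.pd 1 a := funext (hQ2 a (hle C1 (by omega)))
  obtain ⟨P, hx, hr, ht⟩ := h5 (B ^ C1) f Q a (by rw [← pow_mul]; exact hle _ (by omega))
    (by rw [hth]; exact h2 B f Fm a (hle C2 (by omega)))
    (by rw [hth]; exact h3 B f Fm a (hle K0 (by omega))) ν hν
  refine ⟨P, hx, hr, ?_⟩
  have h6 : (fun u => PowerSeries.coeff 0 (Q.pd.x u)) =
      fun u => PowerSeries.coeff 0 (Fm.pd.x u) := funext hQ1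
  rw [← h6, ← hth]
  exact ht

end Pool.Agent.H87.TW
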